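import Pool.Agent.H30W.Defs

set_option autoImplicit false

open Finset Polynomial

namespace Pool.Agent.H30W

theorem wt_add_four (j : ℕ) : wt (4 + j) = - wt j := by
  unfold wt
  have h8 : j % 8 < 8 := Nat.mod_lt _ (by norm_num)
  have h1 : (4 + j) % 8 = (4 + j % 8) % 8 := by omega
  rw [h1]
  generalize j % 8 = i at h8
  interval_cases i <;> norm_num

/-- the sum does not depend on the range -/
theorem sum_eq_psum (n : ℕ) (q : ℤ[X]) (hn : q.natDegree ≤ n) (φ : ℕ → ℝ) :
    ∑ j ∈ range (n + 1), wt j * (q.coeff j : ℝ) * φ j =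
      q.sum (fun (j : ℕ) (c : ℤ) => wt j * (c : ℝ) * φ j) := by
  rw [Polynomial.sum_over_range' q (f := fun (j : ℕ) (c : ℤ) => wt j * (c : ℝ) * φ j) (fun j => by simp)
    (n + 1) (by omega)]

theorem psum_mul (g : ℤ[X]) (φ : ℕ → ℝ) :
    ((X ^ 4 + 1) * g).sum (fun (j : ℕ) (c : ℤ) => wt j * (c : ℝ) * φ j) =
      g.sum (fun (j : ℕ) (c : ℤ) => wt j * (c : ℝ) * (φ j - φ (4 + j))) := by
  have hd : ((X ^ 4 + 1) * g).natDegree ≤ 4 + g.natDegree := by
    refine natDegree_mul_le.trans ?_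
    have h1 : (X ^ 4 + 1 : ℤ[X]).natDegree ≤ 4 := by compute_degree
    omega
  rw [Polynomial.sum_over_range' _ (f := fun (j : ℕ) (c : ℤ) => wt j * (c : ℝ) * φ j) (fun j => by simp)
    (4 + (g.natDegree + 1)) (by omega),
    Polynomial.sum_over_range' g (f := fun (j : ℕ) (c : ℤ) => wt j * (c : ℝ) * (φ j - φ (4 + j)))
      (fun j => by simp) (g.natDegree + 1) (by omega)]
  have hc : ∀ j, (((X ^ 4 + 1) * g).coeff j : ℝ) =
      (if 4 ≤ j then (g.coeff (j - 4) : ℝ) else 0) + (g.coeff j : ℝ) := by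
    intro j
    rw [add_mul, one_mul, coeff_add, coeff_X_pow_mul']
    push_cast
    rfl
  have h1 : ∀ j, wt j * (((X ^ 4 + 1) * g).coeff j : ℝ) * φ j =
      wt j * (if 4 ≤ j then (g.coeff (j - 4) : ℝ) else 0) * φ j +
        wt j * (g.coeff j : ℝ) * φ j := by
    intro j
    rw [hc]
    ring
  rw [Finset.sum_congr rfl fun j _ => h1 j, Finset.sum_add_distrib, Finset.sum_range_add]
  have h2 : ∑ x ∈ range 4, wt x * (if 4 ≤ x then (g.coeff (x - 4) : ℝ) else 0) * φ x = 0 := by
    refine Finset.sum_eq_zero fun x hx => ?_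
    rw [if_neg (by have := Finset.mem_range.1 hx; omega)]
    ring
  have h3 : ∀ x, wt (4 + x) * (if 4 ≤ 4 + x then (g.coeff (4 + x - 4) : ℝ) else 0) * φ (4 + x) =
      - (wt x * (g.coeff x : ℝ) * φ (4 + x)) := by
    intro x
    rw [if_pos (by omega), Nat.add_sub_cancel_left, wt_add_four]
    ring
  have h4 : ∑ x ∈ range (4 + (g.natDegree + 1)), wt x * (g.coeff x : ℝ) * φ x =
      ∑ x ∈ range (g.natDegree + 1), wt x * (g.coeff x : ℝ) * φ x := by
    have ha := Polynomial.sum_over_range' g (f := fun (j : ℕ) (c : ℤ) => wt j * (c : ℝ) * φ j)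
      (fun j => by simp) (4 + (g.natDegree + 1)) (by omega)
    have hb := Polynomial.sum_over_range' g (f := fun (j : ℕ) (c : ℤ) => wt j * (c : ℝ) * φ j)
      (fun j => by simp) (g.natDegree + 1) (by omega)
    exact ha.symm.trans hb
  rw [h2, zero_add, Finset.sum_congr rfl fun x _ => h3 x, h4, ← Finset.sum_add_distrib]
  refine Finset.sum_congr rfl fun x _ => ?_
  ring

/-- MODULE N4. `wt (j + 4) = - wt j`. For `f = (X^4 + 1) g`:
`∑ wt j f_j H(j) = ∑ wt j g_j (H(j) - H(j+4))`, and `H - H(X+4)` has smaller degree. Induction on `m`. -/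
theorem annih_psum (m : ℕ) (g : ℤ[X]) : ∀ (H : ℝ[X]), H.natDegree < m →
    ((X ^ 4 + 1) ^ m * g).sum (fun (j : ℕ) (c : ℤ) => wt j * (c : ℝ) * H.eval (j : ℝ)) = 0 := by
  induction m with
  | zero => exact fun H hH => absurd hH (by omega)
  | succ m ih =>
    intro H hH
    rw [pow_succ', mul_assoc, psum_mul _ (fun j => H.eval (j : ℝ))]
    have hK : ∀ j : ℕ, H.eval (j : ℝ) - H.eval ((4 + j : ℕ) : ℝ) =
        (H - H.comp (X + C 4)).eval (j : ℝ) := by
      intro j
      rw [eval_sub, eval_comp, eval_add, eval_X, eval_C]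
      push_cast
      rw [add_comm (4 : ℝ)]
    simp only [hK]
    have hX : (X + C 4 : ℝ[X]).natDegree = 1 := natDegree_X_add_C 4
    have hcomp : (H.comp (X + C 4)).natDegree = H.natDegree := by
      rw [natDegree_comp, hX, mul_one]
    rcases Nat.eq_zero_or_pos H.natDegree with h0 | h0
    · have hz : H - H.comp (X + C 4) = 0 := by
        rw [eq_C_of_natDegree_eq_zero h0, C_comp, sub_self]
      rw [hz]
      simp [Polynomial.sum_def]
    · refine ih _ ?_
      have hlc : (H.comp (X + C 4)).leadingCoeff = H.leadingCoeff := by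
        rw [leadingCoeff_comp (by rw [hX]; norm_num), leadingCoeff_X_add_C, one_pow, mul_one]
      have h5 : (H - H.comp (X + C 4)).natDegree < H.natDegree := by
        have hH0 : H ≠ 0 := fun h => by rw [h, natDegree_zero] at h0; exact lt_irrefl _ h0
        have hC0 : H.comp (X + C 4) ≠ 0 := fun h => by
          rw [h, natDegree_zero] at hcomp; omega
        have h6 : (H - H.comp (X + C 4)).degree < H.degree :=
          degree_sub_lt_left (by rw [degree_eq_natDegree hH0, degree_eq_natDegree hC0, hcomp]) hH0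
            hlc.symm
        by_cases hz : H - H.comp (X + C 4) = 0
        · rw [hz, natDegree_zero]; exact h0
        · exact natDegree_lt_natDegree hz h6
      omega

/-- MODULE N4. `wt (j + 4) = - wt j`. For `f = (X^4 + 1) g`:
`∑ wt j f_j H(j) = ∑ wt j g_j (H(j) - H(j+4))`, and `H - H(X+4)` has smaller degree. Induction on `m`. -/
theorem annih (m n : ℕ) (q : ℤ[X]) (hn : q.natDegree ≤ n) (hq : (X ^ 4 + 1 : ℤ[X]) ^ m ∣ q)
    (H : ℝ[X]) (hH : H.natDegree < m) :
    ∑ j ∈ range (n + 1), wt j * (q.coeff j : ℝ) * H.eval (j : ℝ) = 0 := by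
  obtain ⟨g, rfl⟩ := hq
  rw [sum_eq_psum n _ hn (fun j => H.eval (j : ℝ))]
  exact annih_psum m g H hH

end Pool.Agent.H30W
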