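import Pool.Agent.H30W.Defs

set_option autoImplicit false

open Finset Polynomial Real

namespace Pool.Agent.H30W

private lemma cosh_add_ge {c t : ℝ} (hc : 0 ≤ c) (ht : 0 ≤ t) : cosh c + sinh c * t ≤ cosh (c + t) := by
  rw [cosh_add]
  have h1 := one_le_cosh t
  have h2 : t ≤ sinh t := self_le_sinh_iff.2 ht
  have h3 : 0 ≤ sinh c := sinh_nonneg_iff.2 hc
  have h4 : 0 < cosh c := cosh_pos c
  have h5 : cosh c * 1 ≤ cosh c * cosh t := mul_le_mul_of_nonneg_left h1 h4.le
  have h6 : sinh c * t ≤ sinh c * sinh t := mul_le_mul_of_nonneg_left h2 h3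
  linarith only [h5, h6]

private lemma cosh_sub_ge {a b : ℝ} (hb : 0 ≤ b) (hb1 : b ≤ 1 / 2) : cosh a ≤ 2 * cosh (a - b) := by
  have h1 : 1 - b ≤ exp (-b) := by linarith [add_one_le_exp (-b)]
  have h2 : exp (-b) ≤ exp b := exp_le_exp.2 (by linarith only [hb])
  have h3 : exp (a - b) = exp a * exp (-b) := by rw [← exp_add]; congr 1
  have h4 : exp (-(a - b)) = exp (-a) * exp b := by rw [← exp_add]; congr 1; ring
  rw [cosh_eq, cosh_eq, h3, h4]
  have h5 : exp a * (1 / 2) ≤ exp a * exp (-b) :=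
    mul_le_mul_of_nonneg_left (by linarith only [h1, hb1]) (exp_pos a).le
  have h6 : exp (-a) * (1 / 2) ≤ exp (-a) * exp b :=
    mul_le_mul_of_nonneg_left (by linarith only [h1, hb1, h2]) (exp_pos (-a)).le
  linarith only [h5, h6]

private lemma cosh_le_sq {v : ℝ} (hv : v ^ 2 ≤ 1) : cosh v ≤ 1 + v ^ 2 := by
  have h1 := cosh_le_exp_half_sq v
  have h0 := sq_nonneg v
  have h2 : |exp (v ^ 2 / 2) - 1| ≤ 2 * |v ^ 2 / 2| :=
    abs_exp_sub_one_le (by rw [abs_of_nonneg (by positivity)]; linarith only [hv])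
  rw [abs_of_nonneg (show (0 : ℝ) ≤ v ^ 2 / 2 by positivity)] at h2
  have h3 := le_abs_self (exp (v ^ 2 / 2) - 1)
  linarith only [h1, h2, h3]

/-- MODULE N6. `H = T_R ∘ y`, `y(x) = 1 + 2 (L - x) / (n - L)` (`y(L) = 1`, `y(n) = -1`). Mathlib:
`Polynomial.Chebyshev.T_real_cosh`, `abs_eval_T_real_le_one`, `one_le_eval_T_real`. For `x ≤ L`, `y(x) = cosh u(x)`, `u ≥ 0` decreasing, and
`H(x) = cosh (R u)`. `ε = 2L/(n-L) ≤ 2`..., `cosh v ≤ 1 + v^2` for `0 ≤ v ≤ 1`, so `u(0) ≥ √(2L/n)` (if `2L/n ≤ 1`) and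
`H(0) ≥ exp (R u(0)) / 2 ≥ n`. For the last but one: `u(0) - u(400) ≤ (y(0) - y(400)) / sinh u(400)`,
`sinh u(400) ≥ u(400) ≥ √(L/n)` (`ε_1 = 2(L-400)/(n-L) ≥ L/n`), so `R (u(0)-u(400)) ≤ R · 1600/√(L n) ≤ 1/2`, and
`cosh (a - b) ≥ exp (-b) cosh a`. -/
theorem kernel (R : ℕ) (n L : ℝ) (hL : 800 ≤ L) (hn : 10 * L ≤ n)
    (h1 : log (2 * n) ≤ R * √(2 * L / n)) (h2 : 3200 * (R : ℝ) ≤ √(L * n)) :
    ∃ H : ℝ[X], H.natDegree ≤ R ∧ (∀ x, L ≤ x → x ≤ n → |H.eval x| ≤ 1) ∧
      (∀ x y, 0 ≤ x → x ≤ y → y ≤ L → H.eval y ≤ H.eval x) ∧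
      (∀ x, 0 ≤ x → x ≤ L → 0 ≤ H.eval x) ∧
      H.eval 0 ≤ 2 * H.eval 400 ∧ n ≤ H.eval 0 := by
  have hd : 0 < n - L := by linarith only [hL, hn]
  have hn0 : 0 < n := by linarith only [hL, hn]
  have hL0 : 0 < L := by linarith only [hL]
  have hR0 : (0 : ℝ) ≤ R := Nat.cast_nonneg R
  set y : ℝ → ℝ := fun x => 1 + 2 * (L - x) / (n - L) with hy
  have hy1 : ∀ x, x ≤ L → 1 ≤ y x := by
    intro x hx
    have : 0 ≤ 2 * (L - x) / (n - L) := div_nonneg (by linarith only [hx]) hd.le
    simp only [hy]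
    linarith only [this]
  have hyanti : ∀ x z, x ≤ z → y z ≤ y x := by
    intro x z hxz
    have : 2 * (L - z) / (n - L) ≤ 2 * (L - x) / (n - L) :=
      div_le_div_of_nonneg_right (by linarith only [hxz]) hd.le
    simp only [hy]
    linarith only [this]
  set P : ℝ[X] := C (1 + 2 * L / (n - L)) - C (2 / (n - L)) * X with hP
  have hPe : ∀ x, P.eval x = y x := by
    intro x
    simp only [hP, hy, eval_sub, eval_C, eval_mul, eval_X]
    field_simp
    ring
  have hPd : P.natDegree ≤ 1 := by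
    rw [hP]
    refine (natDegree_sub_le _ _).trans (max_le ?_ ?_)
    · rw [natDegree_C]; exact Nat.zero_le _
    · exact (natDegree_C_mul_le _ _).trans natDegree_X_le
  have hHe : ∀ x, ((Chebyshev.T ℝ (R : ℤ)).comp P).eval x = (Chebyshev.T ℝ (R : ℤ)).eval (y x) := by
    intro x
    rw [eval_comp, hPe]
  have hHc : ∀ x, x ≤ L → ((Chebyshev.T ℝ (R : ℤ)).comp P).eval x = cosh (R * arcosh (y x)) := by
    intro x hx
    rw [hHe]
    conv_lhs => rw [← cosh_arcosh (hy1 x hx)]
    rw [Chebyshev.T_real_cosh]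
    simp
  refine ⟨(Chebyshev.T ℝ (R : ℤ)).comp P, ?_, ?_, ?_, ?_, ?_, ?_⟩
  · refine natDegree_comp_le.trans ?_
    have h3 : (Chebyshev.T ℝ (R : ℤ)).natDegree ≤ R := by
      have := Chebyshev.natDegree_T ℝ (R : ℤ)
      rw [this]; simp
    calc (Chebyshev.T ℝ (R : ℤ)).natDegree * P.natDegree ≤ R * 1 := Nat.mul_le_mul h3 hPd
      _ = R := mul_one R
  · intro x hx1 hx2
    rw [hHe]
    apply Chebyshev.abs_eval_T_real_le_one
    rw [abs_le]
    constructor
    · have : -2 ≤ 2 * (L - x) / (n - L) := by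
        rw [le_div_iff₀ hd]; linarith only [hx2]
      simp only [hy]; linarith only [this]
    · have : 2 * (L - x) / (n - L) ≤ 0 := by
        rw [div_le_iff₀ hd]; linarith only [hx1]
      simp only [hy]; linarith only [this]
  · intro x z hx hxz hz
    rw [hHc z hz, hHc x (hxz.trans hz), cosh_le_cosh]
    have h3 := arcosh_nonneg (hy1 z hz)
    have h4 := arcosh_nonneg (hy1 x (hxz.trans hz))
    rw [abs_of_nonneg (mul_nonneg hR0 h3), abs_of_nonneg (mul_nonneg hR0 h4)]
    exact mul_le_mul_of_nonneg_left ((arcosh_le_arcosh (by linarith only [hy1 z hz])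
      (by linarith only [hy1 x (hxz.trans hz)])).2 (hyanti x z hxz)) hR0
  · intro x hx hxL
    rw [hHc x hxL]
    exact (cosh_pos _).le
  · rw [hHc 0 hL0.le, hHc 400 (by linarith only [hL])]
    have ha := arcosh_nonneg (hy1 0 hL0.le)
    have hc := arcosh_nonneg (hy1 400 (by linarith only [hL]))
    have hac : arcosh (y 400) ≤ arcosh (y 0) :=
      (arcosh_le_arcosh (by linarith only [hy1 400 (by linarith only [hL])])
      (by linarith only [hy1 0 hL0.le])).2 (hyanti 0 400 (by norm_num))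
    set a := arcosh (y 0) with hadef
    set c := arcosh (y 400) with hcdef
    -- convexity
    have hcv := cosh_add_ge hc (show 0 ≤ a - c by linarith only [hac])
    have e1 : c + (a - c) = a := by ring
    rw [e1] at hcv
    have ea : cosh a = y 0 := cosh_arcosh (hy1 0 hL0.le)
    have ec : cosh c = y 400 := cosh_arcosh (hy1 400 (by linarith only [hL]))
    have es : sinh c = √(y 400 ^ 2 - 1) := sinh_arcosh (hy1 400 (by linarith only [hL]))
    have hs : √(L / n) ≤ sinh c := by
      rw [es]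
      apply sqrt_le_sqrt
      have h3 : L / n ≤ 2 * (L - 400) / (n - L) := by
        rw [div_le_div_iff₀ hn0 hd]
        nlinarith only [mul_nonneg (show 0 ≤ L - 800 by linarith only [hL]) hn0.le, mul_pos hL0 hL0]
      have h4 : y 400 = 1 + 2 * (L - 400) / (n - L) := rfl
      rw [h4]
      have h5 : 0 ≤ 2 * (L - 400) / (n - L) := le_trans (by positivity) h3
      nlinarith only [h3, h5]
    have hdiff : y 0 - y 400 = 800 / (n - L) := by
      simp only [hy]; field_simp; ring
    have hsq : √(L / n) * √(L * n) = L := by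
      rw [← sqrt_mul (by positivity)]
      have : L / n * (L * n) = L ^ 2 := by field_simp
      rw [this, sqrt_sq hL0.le]
    have hb : R * (a - c) ≤ 1 / 2 := by
      have h3 : √(L / n) * (a - c) ≤ 800 / (n - L) := by
        have h4 : √(L / n) * (a - c) ≤ sinh c * (a - c) :=
          mul_le_mul_of_nonneg_right hs (by linarith only [hac])
        linarith only [hcv, ea, ec, hdiff, h4]
      have hq : 0 < √(L / n) := sqrt_pos.2 (by positivity)
      have h5 : √(L / n) * (3200 * (R : ℝ)) ≤ L := by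
        have h51 := mul_le_mul_of_nonneg_left h2 hq.le
        rwa [hsq] at h51
      have h6 : 800 / (n - L) * L ≤ 800 / 9 := by
        rw [div_mul_eq_mul_div, div_le_div_iff₀ hd (by norm_num)]
        linarith only [hn]
      -- (√ (a-c)) * (√ 3200 R) ≤ 800/(n-L) * L
      have h7 : (√(L / n) * (a - c)) * (√(L / n) * (3200 * (R : ℝ))) ≤ 800 / (n - L) * L :=
        mul_le_mul h3 h5 (by positivity) (by positivity)
      have h8 : √(L / n) * √(L / n) = L / n := mul_self_sqrt (by positivity)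
      have h9 : (L / n) * (3200 * (R * (a - c))) ≤ 800 / (n - L) * L := by
        calc (L / n) * (3200 * (R * (a - c))) = (√(L / n) * √(L / n)) * (3200 * (R * (a - c))) := by rw [h8]
          _ = (√(L / n) * (a - c)) * (√(L / n) * (3200 * (R : ℝ))) := by ring
          _ ≤ _ := h7
      have h10 : (L / n) * (3200 * (R * (a - c))) ≤ (L / n) * (3200 * (1 / 2)) := by
        refine h9.trans ?_
        have : 800 / (n - L) * L = (L / n) * (800 * (n / (n - L))) := by field_simp
        rw [this]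
        apply mul_le_mul_of_nonneg_left _ (by positivity)
        have h11 : n / (n - L) ≤ 10 / 9 := by
          rw [div_le_div_iff₀ hd (by norm_num)]; linarith only [hn]
        linarith only [h11]
      have h12 := le_of_mul_le_mul_left h10 (by positivity)
      linarith only [h12]
    have := cosh_sub_ge (a := R * a) (b := R * (a - c)) (mul_nonneg hR0 (by linarith only [hac])) hb
    have e2 : (R : ℝ) * a - R * (a - c) = R * c := by ring
    rwa [e2] at this
  · rw [hHc 0 hL0.le]
    set v := √(2 * L / n) with hv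
    have hv2 : v ^ 2 = 2 * L / n := sq_sqrt (by positivity)
    have hv0 : 0 ≤ v := sqrt_nonneg _
    have hvle : v ^ 2 ≤ 1 := by
      rw [hv2, div_le_one hn0]; linarith only [hn, hL]
    have h3 : cosh v ≤ y 0 := by
      refine (cosh_le_sq hvle).trans ?_
      rw [hv2]
      have h4 : y 0 = 1 + 2 * (L - 0) / (n - L) := rfl
      rw [h4, sub_zero]
      have : 2 * L / n ≤ 2 * L / (n - L) :=
        div_le_div_of_nonneg_left (by positivity) hd (by linarith only [hL])
      linarith only [this]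
    have h5 : v ≤ arcosh (y 0) := by
      rw [← arcosh_cosh hv0]
      exact (arcosh_le_arcosh (cosh_pos v) (by linarith only [hy1 0 hL0.le])).2 h3
    have h6 : log (2 * n) ≤ R * arcosh (y 0) := h1.trans (mul_le_mul_of_nonneg_left h5 hR0)
    have h7 : 2 * n ≤ exp (R * arcosh (y 0)) := by
      rw [← log_le_iff_le_exp (by positivity)]; exact h6
    rw [cosh_eq]
    have := exp_pos (-(R * arcosh (y 0)))
    linarith only [h7, this]

end Pool.Agent.H30W
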