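import Pool.Agent.H30W.Defs

set_option autoImplicit false

open Finset

namespace Pool.Agent.H30W

/-- the partial sums of `wt` -/
noncomputable def Wd (N : ℕ) : ℝ :=
  if N % 8 = 3 ∨ N % 8 = 4 ∨ N % 8 = 5 ∨ N % 8 = 6 then -1 else 0

theorem Wd_succ (N : ℕ) : Wd (N + 1) = Wd N + wt N := by
  have h1 : (N + 1) % 8 = (N % 8 + 1) % 8 := by omega
  unfold Wd wt
  rw [h1]
  have h2 : N % 8 < 8 := Nat.mod_lt _ (by norm_num)
  generalize N % 8 = r at h2 ⊢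
  interval_cases r <;> norm_num

theorem Wd_cases (N : ℕ) : Wd N = -1 ∨ Wd N = 0 := by
  unfold Wd
  split_ifs
  · exact Or.inl rfl
  · exact Or.inr rfl

theorem block (V : ℕ) : (-1 : ℝ) ^ V * (Wd ((V + 1) ^ 2) - Wd (V ^ 2)) =
    if V % 4 = 1 ∨ V % 4 = 2 then 1 else 0 := by
  have h1 : (V + 1) ^ 2 % 8 = ((V % 8 + 1) ^ 2) % 8 := by
    rw [Nat.pow_mod, Nat.pow_mod (V % 8 + 1)]
    congr 2
    omega
  have h2 : V ^ 2 % 8 = ((V % 8) ^ 2) % 8 := Nat.pow_mod V 2 8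
  have h3 : (-1 : ℝ) ^ V = if (V % 8) % 2 = 0 then 1 else -1 := by
    split_ifs with h
    · exact Even.neg_one_pow (Nat.even_iff.2 (by omega))
    · exact Odd.neg_one_pow (Nat.odd_iff.2 (by omega))
  have h4 : V % 4 = (V % 8) % 4 := by omega
  unfold Wd
  rw [h1, h2, h3, h4]
  have h5 : V % 8 < 8 := Nat.mod_lt _ (by norm_num)
  generalize V % 8 = r at h5 ⊢
  interval_cases r <;> norm_num

/-- the number of the `u < v` which are `1` or `2` mod `4` -/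
noncomputable def cc (v : ℕ) : ℝ := ∑ u ∈ range v, if u % 4 = 1 ∨ u % 4 = 2 then 1 else 0

theorem cc_eq (v : ℕ) : 2 * cc v = v + (if v % 4 = 1 then -1 else if v % 4 = 3 then 1 else 0) := by
  induction v with
  | zero => simp [cc]
  | succ v ih =>
    have h1 : cc (v + 1) = cc v + if v % 4 = 1 ∨ v % 4 = 2 then 1 else 0 := sum_range_succ _ _
    rw [h1, mul_add, ih]
    have h2 : (v + 1) % 4 = (v % 4 + 1) % 4 := by omega
    rw [h2]
    push_cast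
    have h3 : v % 4 < 4 := Nat.mod_lt _ (by norm_num)
    generalize v % 4 = r at h3 ⊢
    interval_cases r <;> norm_num <;> ring

theorem cc_lower (v : ℕ) : (v : ℝ) - 1 ≤ 2 * cc v := by
  rw [cc_eq]
  split_ifs <;> linarith

theorem sum_eq (N : ℕ) : ∑ j ∈ range N, wt j * (-1 : ℝ) ^ (Nat.sqrt j) =
    cc (Nat.sqrt N) + (-1 : ℝ) ^ (Nat.sqrt N) * (Wd N - Wd ((Nat.sqrt N) ^ 2)) := by
  induction N with
  | zero => simp [cc]
  | succ N ih =>
    rw [sum_range_succ, ih]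
    have hs1 := Nat.sqrt_le' N
    have hs2 := Nat.lt_succ_sqrt' N
    by_cases h : (N + 1) < (Nat.sqrt N + 1) ^ 2
    · have h1 : Nat.sqrt (N + 1) = Nat.sqrt N := by
        exact (Nat.eq_sqrt'.2 ⟨by omega, h⟩).symm
      rw [h1, Wd_succ]
      ring
    · have h2 : N + 1 = (Nat.sqrt N + 1) ^ 2 := by
        have : N < (Nat.sqrt N + 1) ^ 2 := hs2
        omega
      have h1 : Nat.sqrt (N + 1) = Nat.sqrt N + 1 := by
        conv_lhs => rw [h2]
        exact Nat.sqrt_eq' _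
      have h3 : cc (Nat.sqrt N + 1) = cc (Nat.sqrt N) +
          if Nat.sqrt N % 4 = 1 ∨ Nat.sqrt N % 4 = 2 then 1 else 0 := sum_range_succ _ _
      rw [h1, h3, ← block, ← h2, Wd_succ]
      ring

theorem B_lower (N : ℕ) :
    √(N : ℝ) / 2 - 2 ≤ ∑ j ∈ range (N + 1), wt j * (-1 : ℝ) ^ (Nat.sqrt j) := by
  have h1 : ∑ j ∈ range (N + 1), wt j * (-1 : ℝ) ^ (Nat.sqrt j) =
      cc (Nat.sqrt N) + (-1 : ℝ) ^ (Nat.sqrt N) * (Wd (N + 1) - Wd ((Nat.sqrt N) ^ 2)) := by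
    rw [sum_range_succ, sum_eq, Wd_succ]
    ring
  rw [h1]
  have h2 := cc_lower (Nat.sqrt N)
  have h3 : -1 ≤ (-1 : ℝ) ^ (Nat.sqrt N) * (Wd (N + 1) - Wd ((Nat.sqrt N) ^ 2)) := by
    rcases neg_one_pow_eq_or ℝ (Nat.sqrt N) with h | h <;>
    rcases Wd_cases (N + 1) with h' | h' <;>
    rcases Wd_cases ((Nat.sqrt N) ^ 2) with h'' | h'' <;>
    rw [h, h', h''] <;> norm_num
  have h4 : √(N : ℝ) ≤ (Nat.sqrt N : ℝ) + 1 := by
    rw [Real.sqrt_le_left (by positivity)]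
    have h5 : N < (Nat.sqrt N + 1) ^ 2 := Nat.lt_succ_sqrt' N
    have h6 : (N : ℝ) < ((Nat.sqrt N : ℝ) + 1) ^ 2 := by exact_mod_cast h5
    exact h6.le
  linarith

end Pool.Agent.H30W
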