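import Pool.Agent.H30W.Annih
import Pool.Agent.H30W.PartialB
import Pool.Agent.H30W.Kernel
import Pool.Agent.H30V.Dual

set_option autoImplicit false

open Finset Polynomial Real

namespace Pool.Agent.H30W

/-- summation by parts -/
lemma abel (b H : ℕ → ℝ) : ∀ N : ℕ, ∑ j ∈ range (N + 1), b j * H j =
    ∑ j ∈ range N, (∑ i ∈ range (j + 1), b i) * (H j - H (j + 1)) + (∑ i ∈ range (N + 1), b i) * H N := by
  intro N
  induction N with
  | zero => simp
  | succ N ih =>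
    rw [sum_range_succ, ih, sum_range_succ (fun j => (∑ i ∈ range (j + 1), b i) * (H j - H (j + 1))) N,
      sum_range_succ b (N + 1)]
    ring

/-- the main term -/
lemma main_lower (b H : ℕ → ℝ) (N : ℕ) (hN : 400 ≤ N)
    (hb : ∀ j : ℕ, √(j : ℝ) / 2 - 2 ≤ ∑ i ∈ range (j + 1), b i)
    (hdec : ∀ j, j < N → H (j + 1) ≤ H j) (hpos : 0 ≤ H N) (h400 : H 0 ≤ 2 * H 400) :
    3 * H 0 ≤ ∑ j ∈ range (N + 1), b j * H j := by
  rw [abel]
  have hb2 : ∀ j, -2 ≤ ∑ i ∈ range (j + 1), b i := by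
    intro j
    have h1 := hb j
    have h2 : 0 ≤ √(j : ℝ) := sqrt_nonneg _
    linarith
  have hb8 : ∀ j, 400 ≤ j → 8 ≤ ∑ i ∈ range (j + 1), b i := by
    intro j hj
    have h1 := hb j
    have h2 : 20 ≤ √(j : ℝ) := by
      apply le_sqrt_of_sq_le
      have : (400 : ℝ) ≤ j := by exact_mod_cast hj
      linarith
    linarith
  obtain ⟨d, rfl⟩ : ∃ d, N = 400 + d := ⟨N - 400, by omega⟩
  rw [sum_range_add]
  have h1 : -2 * (H 0 - H 400) ≤ ∑ j ∈ range 400, (∑ i ∈ range (j + 1), b i) * (H j - H (j + 1)) := by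
    have h2 : ∑ j ∈ range 400, (-2 : ℝ) * (H j - H (j + 1)) = -2 * (H 0 - H 400) := by
      rw [← mul_sum, sum_range_sub']
    rw [← h2]
    apply sum_le_sum
    intro j hj
    rw [mem_range] at hj
    apply mul_le_mul_of_nonneg_right (hb2 j)
    linarith [hdec j (by omega)]
  have h3 : 8 * (H 400 - H (400 + d)) ≤
      ∑ j ∈ range d, (∑ i ∈ range (400 + j + 1), b i) * (H (400 + j) - H (400 + j + 1)) := by
    have h4 : ∑ j ∈ range d, (8 : ℝ) * (H (400 + j) - H (400 + (j + 1))) = 8 * (H 400 - H (400 + d)) := by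
      rw [← mul_sum, sum_range_sub' (fun j => H (400 + j))]
    rw [← h4]
    apply sum_le_sum
    intro j hj
    rw [mem_range] at hj
    apply mul_le_mul_of_nonneg_right (hb8 _ (by omega))
    have := hdec (400 + j) (by omega)
    rw [add_assoc] at this
    linarith
  have h5 : 8 * H (400 + d) ≤ (∑ i ∈ range (400 + d + 1), b i) * H (400 + d) :=
    mul_le_mul_of_nonneg_right (hb8 _ (by omega)) hpos
  linarith

/-- the pattern on the initial segment contradicts the zeros at the primitive `8`-th roots of unity -/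
theorem contra {n m R : ℕ} {Lr : ℝ} (q : ℤ[X]) (hn : q.natDegree ≤ n) (hc : ∀ i, |q.coeff i| ≤ 1)
    (hm : (X ^ 4 + 1 : ℤ[X]) ^ m ∣ q) (hR : R < m) (hL : 800 ≤ Lr) (hLn : 10 * Lr ≤ n)
    (h1 : log (2 * n) ≤ R * √(2 * Lr / n)) (h2 : 3200 * (R : ℝ) ≤ √(Lr * n))
    (hpat : ∀ j : ℕ, (j : ℝ) ≤ Lr → wt j ≠ 0 → (q.coeff j : ℝ) = (-1) ^ (Nat.sqrt j)) : False := by
  obtain ⟨H, hHd, hHout, hHdec, hHpos, hH400, hHn⟩ := kernel R n Lr hL hLn h1 h2
  have h0 := annih m n q hn hm H (by omega)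
  have hL0 : 0 ≤ Lr := by linarith
  have hNle : ((⌊Lr⌋₊ : ℕ) : ℝ) ≤ Lr := Nat.floor_le hL0
  have hNlt : Lr < (⌊Lr⌋₊ : ℝ) + 1 := Nat.lt_floor_add_one Lr
  have hN400 : 400 ≤ ⌊Lr⌋₊ := Nat.le_floor (by push_cast; linarith)
  generalize ⌊Lr⌋₊ = N at hNle hNlt hN400
  have hNn : N ≤ n := by
    have : (N : ℝ) ≤ n := by linarith
    exact_mod_cast this
  obtain ⟨d, rfl⟩ : ∃ d, n = N + d := ⟨n - N, by omega⟩
  rw [show N + d + 1 = (N + 1) + d by ring, sum_range_add] at h0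
  have hmain := main_lower (fun j => wt j * (-1 : ℝ) ^ (Nat.sqrt j)) (fun j => H.eval (j : ℝ)) N hN400
    (fun j => B_lower j)
    (by
      intro j hj
      have h3 : ((j + 1 : ℕ) : ℝ) ≤ N := by exact_mod_cast hj
      apply hHdec _ _ (by positivity)
      · push_cast; linarith
      · linarith)
    (hHpos _ (by positivity) hNle)
    (by simpa using hH400)
  have hfirst : ∑ j ∈ range (N + 1), wt j * (q.coeff j : ℝ) * H.eval (j : ℝ) =
      ∑ j ∈ range (N + 1), (fun j => wt j * (-1 : ℝ) ^ (Nat.sqrt j)) j * (fun j : ℕ => H.eval (j : ℝ)) j := by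
    apply sum_congr rfl
    intro j hj
    rw [mem_range] at hj
    by_cases hw : wt j = 0
    · simp [hw]
    · have hjN : (j : ℝ) ≤ N := by exact_mod_cast (by omega : j ≤ N)
      rw [hpat j (by linarith) hw]
  have hsecond : |∑ x ∈ range d, wt (N + 1 + x) * (q.coeff (N + 1 + x) : ℝ) * H.eval ((N + 1 + x : ℕ) : ℝ)| ≤ d := by
    refine (abs_sum_le_sum_abs _ _).trans ?_
    calc ∑ x ∈ range d, |wt (N + 1 + x) * (q.coeff (N + 1 + x) : ℝ) * H.eval ((N + 1 + x : ℕ) : ℝ)|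
        ≤ ∑ x ∈ range d, (1 : ℝ) := by
          apply sum_le_sum
          intro x hx
          rw [mem_range] at hx
          rw [abs_mul, abs_mul]
          have h3 : |wt (N + 1 + x)| ≤ 1 := by
            unfold wt
            split_ifs <;> simp
          have h4 : |(q.coeff (N + 1 + x) : ℝ)| ≤ 1 := by exact_mod_cast hc (N + 1 + x)
          have h5 : |H.eval ((N + 1 + x : ℕ) : ℝ)| ≤ 1 := by
            apply hHout
            · push_cast
              have : (0 : ℝ) ≤ x := by positivity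
              linarith
            · exact_mod_cast (by omega : N + 1 + x ≤ N + d)
          calc |wt (N + 1 + x)| * |(q.coeff (N + 1 + x) : ℝ)| * |H.eval ((N + 1 + x : ℕ) : ℝ)|
              ≤ 1 * 1 * 1 := by
                apply mul_le_mul _ h5 (abs_nonneg _) (by norm_num)
                exact mul_le_mul h3 h4 (abs_nonneg _) (by norm_num)
            _ = 1 := by norm_num
      _ = d := by simp
  rw [hfirst] at h0
  have h6 := neg_abs_le (∑ x ∈ range d, wt (N + 1 + x) * (q.coeff (N + 1 + x) : ℝ) * H.eval ((N + 1 + x : ℕ) : ℝ))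
  have h7 : (d : ℝ) ≤ ((N + d : ℕ) : ℝ) := by push_cast; linarith [(Nat.cast_nonneg N : (0 : ℝ) ≤ N)]
  have h8 : (0 : ℝ) < ((N + d : ℕ) : ℝ) := by
    have : 0 < N + d := by omega
    exact_mod_cast this
  have h9 : 3 * (fun j : ℕ => H.eval (j : ℝ)) 0 = 3 * H.eval 0 := by simp
  rw [h9] at hmain
  linarith

/-- real version of the duality -/
theorem dual_real (n k : ℕ) (q : ℤ[X]) (hn : q.natDegree ≤ n) (hk : (X - 1 : ℤ[X]) ^ k ∣ q) (Q : ℝ[X])
    (hQ : Q.natDegree < k) : ∑ j ∈ range (n + 1), (q.coeff j : ℝ) * Q.eval (j : ℝ) = 0 := by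
  have h1 : (X - C 1 : ℂ[X]) ^ k ∣ q.map (Int.castRingHom ℂ) := by
    have := Polynomial.map_dvd (Int.castRingHom ℂ) hk
    simpa using this
  have h2 := H30V.dual n k (q.map (Int.castRingHom ℂ)) (Q.map (algebraMap ℝ ℂ))
    (natDegree_map_le.trans hn) h1 (lt_of_le_of_lt natDegree_map_le hQ)
  have h3 : ∀ j : ℕ, (Q.map (algebraMap ℝ ℂ)).eval (j : ℂ) = ((Q.eval (j : ℝ) : ℝ) : ℂ) := by
    intro j
    rw [eval_map]
    have := eval₂_at_apply (algebraMap ℝ ℂ) (j : ℝ) (p := Q)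
    simp at this ⊢
  have h4 : ∑ j ∈ range (n + 1), (q.map (Int.castRingHom ℂ)).coeff j * (Q.map (algebraMap ℝ ℂ)).eval (j : ℂ) =
      ((∑ j ∈ range (n + 1), (q.coeff j : ℝ) * Q.eval (j : ℝ) : ℝ) : ℂ) := by
    rw [Complex.ofReal_sum]
    apply sum_congr rfl
    intro j _
    rw [h3, coeff_map]
    simp
  rw [h4] at h2
  exact_mod_cast h2

/-- nearly optimal certificates force the signs -/
theorem pattern {n : ℕ} {δ : ℝ} (a Q : ℕ → ℝ) (ha0 : a 0 = 1) (ha : ∀ i, a i = -1 ∨ a i = 0 ∨ a i = 1)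
    (hQ0 : Q 0 = 1) (hsum : ∑ j ∈ range (n + 1), a j * Q j = 0)
    (hQ : ∑ j ∈ range n, |Q (j + 1)| ≤ 1 + δ) (j : ℕ) (hj : 1 ≤ j) (hjn : j ≤ n) (σ : ℝ)
    (hσ : σ = 1 ∨ σ = -1) (hlow : δ < -(σ * Q j)) : a j = σ := by
  obtain ⟨i, rfl⟩ : ∃ i, j = i + 1 := ⟨j - 1, by omega⟩
  have hi : i ∈ range n := mem_range.2 (by omega)
  rw [sum_range_succ', ha0, hQ0, ← add_sum_erase _ _ hi] at hsum
  rw [← add_sum_erase _ _ hi] at hQ
  have h1 : ∑ x ∈ (range n).erase i, -(a (x + 1) * Q (x + 1)) ≤ ∑ x ∈ (range n).erase i, |Q (x + 1)| := by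
    apply sum_le_sum
    intro x _
    rcases ha (x + 1) with h | h | h <;> rw [h]
    · have := le_abs_self (Q (x + 1)); linarith
    · have := abs_nonneg (Q (x + 1)); linarith
    · have := neg_le_abs (Q (x + 1)); linarith
  rw [sum_neg_distrib] at h1
  have h2 : |Q (i + 1)| + a (i + 1) * Q (i + 1) ≤ δ := by linarith
  have hδ : 0 ≤ |Q (i + 1)| := abs_nonneg _
  have h3 : -(σ * Q (i + 1)) ≤ |Q (i + 1)| := by
    rcases hσ with h | h <;> rw [h]
    · have := neg_le_abs (Q (i + 1)); linarith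
    · have := le_abs_self (Q (i + 1)); linarith
  rcases ha (i + 1) with h | h | h
  · rw [h] at h2 ⊢
    rcases hσ with h' | h'
    · exfalso
      rw [h'] at h3 hlow
      have := le_abs_self (Q (i + 1))
      have := neg_le_abs (Q (i + 1))
      nlinarith
    · exact h'.symm
  · exfalso
    rw [h] at h2
    linarith
  · rw [h] at h2 ⊢
    rcases hσ with h' | h'
    · exact h'.symm
    · exfalso
      rw [h'] at h3 hlow
      linarith

end Pool.Agent.H30W
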