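import Mathlib

/-!
# Integrality in the upper bound for the order of vanishing at `1`

Weights supported on the residues `2` and `6` mod `8` (which contain no squares), antiperiodic mod `4`: they are a
combination of the characters given by the primitive `8`-th roots of unity.
-/

set_option autoImplicit false

namespace Pool.Agent.H30W

/-- `-1` on `2 mod 8`, `1` on `6 mod 8`, `0` elsewhere -/
def wt (j : ℕ) : ℝ := if j % 8 = 2 then -1 else if j % 8 = 6 then 1 else 0

end Pool.Agent.H30W
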