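import Pool.Agent.H30W.Defs

set_option autoImplicit false

open Finset Polynomial

namespace Pool.Agent.H30W

/-- the fourth power plus one is divisible by `X - ζ` -/
private lemma fac (ζ : ℂ) (h4 : ζ ^ 4 = -1) :
    (X ^ 4 + 1 : ℂ[X]) = (X - C ζ) * (X ^ 3 + C ζ * X ^ 2 + C (ζ ^ 2) * X + C (ζ ^ 3)) := by
  have : C (ζ ^ 4) = (-1 : ℂ[X]) := by rw [h4]; simp
  have h2 : C (ζ ^ 4) = C ζ * C (ζ ^ 3) := by rw [← C_mul]; ring_nf
  have h3 : C (ζ ^ 3) = C ζ ^ 3 := by rw [C_pow]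
  have h5 : C (ζ ^ 2) = C ζ ^ 2 := by rw [C_pow]
  rw [h2, h3] at this
  rw [h3, h5]
  linear_combination this

private lemma hasse_bound (q : ℤ[X]) (n a : ℕ) (hn : q.natDegree ≤ n)
    (hc : ∀ i, |q.coeff i| ≤ 1) (ζ : ℂ) (h1 : ‖ζ‖ = 1) :
    ‖(hasseDeriv a (q.map (Int.castRingHom ℂ))).eval ζ‖ ≤ ((n : ℝ) + 1) ^ (a + 1) := by
  have hd : (q.map (Int.castRingHom ℂ)).natDegree < n + 1 :=
    lt_of_le_of_lt natDegree_map_le (Nat.lt_succ_of_le hn)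
  rw [hasseDeriv_apply, sum_over_range' _ (by intro i; simp) (n + 1) hd, eval_finsetSum]
  refine (norm_sum_le _ _).trans ?_
  have : ∀ i ∈ range (n + 1), ‖eval ζ (monomial (i - a)
      ((Nat.choose i a : ℂ) * (q.map (Int.castRingHom ℂ)).coeff i))‖ ≤ ((n : ℝ) + 1) ^ a := by
    intro i hi
    rw [eval_monomial, norm_mul, norm_mul, norm_pow, h1, one_pow, mul_one, coeff_map]
    have e1 : ‖(Int.castRingHom ℂ) (q.coeff i)‖ ≤ 1 := by
      rw [eq_intCast, Complex.norm_intCast]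
      exact_mod_cast hc i
    have e2 : ‖((Nat.choose i a : ℕ) : ℂ)‖ ≤ ((n : ℝ) + 1) ^ a := by
      rw [Complex.norm_natCast]
      have h3 : Nat.choose i a ≤ (n + 1) ^ a :=
        (Nat.choose_le_pow i a).trans (Nat.pow_le_pow_left (le_of_lt (mem_range.1 hi)) a)
      exact_mod_cast h3
    calc ‖((Nat.choose i a : ℕ) : ℂ)‖ * ‖(Int.castRingHom ℂ) (q.coeff i)‖
        ≤ ((n : ℝ) + 1) ^ a * 1 := mul_le_mul e2 e1 (norm_nonneg _) (by positivity)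
      _ = _ := mul_one _
  refine (sum_le_sum this).trans (le_of_eq ?_)
  rw [sum_const, card_range, nsmul_eq_mul, pow_succ]
  push_cast
  ring

private lemma root_bound (q r : ℤ[X]) (n a : ℕ) (hn : q.natDegree ≤ n)
    (hc : ∀ i, |q.coeff i| ≤ 1) (hq : q = (X ^ 4 + 1) ^ a * r) (ζ : ℂ) (h4 : ζ ^ 4 = -1)
    (h1 : ‖ζ‖ = 1) : ‖aeval ζ r‖ ≤ ((n : ℝ) + 1) ^ (a + 1) := by
  refine le_trans ?_ (hasse_bound q n a hn hc ζ h1)
  set G : ℂ[X] := X ^ 3 + C ζ * X ^ 2 + C (ζ ^ 2) * X + C (ζ ^ 3) with hG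
  have e : q.map (Int.castRingHom ℂ) = (X - C ζ) ^ a * (G ^ a * r.map (Int.castRingHom ℂ)) := by
    rw [hq, Polynomial.map_mul, Polynomial.map_pow]
    have : (X ^ 4 + 1 : ℤ[X]).map (Int.castRingHom ℂ) = (X - C ζ) * G := by
      rw [← fac ζ h4]; simp
    rw [this, mul_pow, mul_assoc]
  have e2 : (hasseDeriv a (q.map (Int.castRingHom ℂ))).eval ζ
      = (G.eval ζ) ^ a * (r.map (Int.castRingHom ℂ)).eval ζ := by
    rw [← taylor_coeff, e, taylor_mul, taylor_pow]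
    have : taylor ζ (X - C ζ : ℂ[X]) = X := by simp
    rw [this, coeff_X_pow_mul', if_pos le_rfl, Nat.sub_self, taylor_coeff_zero, eval_mul, eval_pow]
  have e3 : G.eval ζ = 4 * ζ ^ 3 := by
    rw [hG]
    simp only [eval_add, eval_mul, eval_pow, eval_X, eval_C]
    ring
  have e4 : (r.map (Int.castRingHom ℂ)).eval ζ = aeval ζ r := by
    rw [aeval_def, eval_map]; rfl
  rw [e2, e3, e4, norm_mul, norm_pow, norm_mul, norm_pow, h1]
  have : (1 : ℝ) ≤ (‖(4 : ℂ)‖ * 1 ^ 3) ^ a := by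
    apply one_le_pow₀
    simp
  calc ‖aeval ζ r‖ = 1 * ‖aeval ζ r‖ := (one_mul _).symm
    _ ≤ _ := mul_le_mul_of_nonneg_right this (norm_nonneg _)

/-- the norm from the field of the eighth roots of unity -/
private noncomputable def Nm (ζ : ℂ) (r : ℤ[X]) : ℝ := (‖aeval ζ r‖ * ‖aeval (-ζ) r‖) ^ 2

private lemma Nm_mul (ζ : ℂ) (r s : ℤ[X]) : Nm ζ (r * s) = Nm ζ r * Nm ζ s := by
  unfold Nm; rw [map_mul, map_mul, norm_mul, norm_mul]; ring

private lemma Nm_pow (ζ : ℂ) (r : ℤ[X]) (k : ℕ) : Nm ζ (r ^ k) = Nm ζ r ^ k := by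
  unfold Nm; rw [map_pow, map_pow, norm_pow, norm_pow]; ring

private lemma Nm_int (ζ : ℂ) (h2 : ζ ^ 2 = Complex.I) (s : ℤ[X]) : ∃ z : ℤ, Nm ζ s = z := by
  have hm : (X ^ 4 + 1 : ℤ[X]).Monic := by
    have := monic_X_pow_add_C (R := ℤ) (1 : ℤ) (n := 4) (by norm_num)
    simpa using this
  set c : ℤ[X] := s %ₘ (X ^ 4 + 1) with hcdef
  have hdeg : c.natDegree < 4 := by
    rw [hcdef]
    have h := natDegree_modByMonic_lt s hm (by
      intro h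
      have := congrArg (fun p => Polynomial.eval (1 : ℤ) p) h
      simp at this)
    have h4 : (X ^ 4 + 1 : ℤ[X]).natDegree = 4 := by
      have := natDegree_X_pow_add_C (R := ℤ) (n := 4) (r := 1)
      simpa using this
    omega
  have hs : s = c + (X ^ 4 + 1) * (s /ₘ (X ^ 4 + 1)) := (modByMonic_add_div s (X ^ 4 + 1)).symm
  have h4 : ζ ^ 4 = -1 := by
    calc ζ ^ 4 = (ζ ^ 2) ^ 2 := by ring
      _ = -1 := by rw [h2]; exact Complex.I_sq
  have key : ∀ w : ℂ, w ^ 4 = -1 → aeval w s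
      = (c.coeff 0 : ℂ) + c.coeff 1 * w + c.coeff 2 * w ^ 2 + c.coeff 3 * w ^ 3 := by
    intro w hw
    have : aeval w s = aeval w c := by
      conv_lhs => rw [hs]
      rw [map_add, map_mul]
      have : aeval w (X ^ 4 + 1 : ℤ[X]) = 0 := by simp [hw]
      rw [this, zero_mul, add_zero]
    rw [this, aeval_eq_sum_range' hdeg]
    simp [Finset.sum_range_succ]
  set a0 := c.coeff 0
  set a1 := c.coeff 1
  set a2 := c.coeff 2
  set a3 := c.coeff 3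
  refine ⟨(a0 ^ 2 - a2 ^ 2 + 2 * a1 * a3) ^ 2 + (2 * a0 * a2 - a1 ^ 2 + a3 ^ 2) ^ 2, ?_⟩
  have e : aeval ζ s * aeval (-ζ) s
      = (((a0 ^ 2 - a2 ^ 2 + 2 * a1 * a3 : ℤ) : ℝ) : ℂ) +
        (((2 * a0 * a2 - a1 ^ 2 + a3 ^ 2 : ℤ) : ℝ) : ℂ) * Complex.I := by
    rw [key ζ h4, key (-ζ) (by rw [neg_pow, h4]; norm_num)]
    rw [← h2]
    push_cast
    linear_combination ((a2 : ℂ) ^ 2 - 2 * a1 * a3 - a3 ^ 2 * ζ ^ 2) * h4
  unfold Nm
  rw [← norm_mul, e, ← Complex.normSq_eq_norm_sq, Complex.normSq_add_mul_I]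
  push_cast
  ring

private lemma dvd_of_root (w : ℂ) (h4 : w ^ 4 = -1) (s : ℤ[X]) (hs : aeval w s = 0) :
    (X ^ 4 + 1 : ℤ[X]) ∣ s := by
  have ho : orderOf w = 2 ^ (2 + 1) := by
    apply orderOf_eq_prime_pow
    · norm_num
      rw [h4]
      norm_num
    · norm_num
      calc w ^ 8 = (w ^ 4) ^ 2 := by ring
        _ = 1 := by rw [h4]; norm_num
  have hp : IsPrimitiveRoot w 8 := by
    have := IsPrimitiveRoot.orderOf w
    rw [ho] at this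
    simpa using this
  have hcyc : cyclotomic 8 ℤ = X ^ 4 + 1 := by
    have h := cyclotomic_prime_pow_eq_geom_sum (R := ℤ) (p := 2) (n := 2) Nat.prime_two
    have e : (2 : ℕ) ^ (2 + 1) = 8 := by norm_num
    rw [e] at h
    rw [h]
    simp [Finset.sum_range_succ]
    ring
  rw [← hcyc, cyclotomic_eq_minpoly hp (by norm_num)]
  exact minpoly.isIntegrallyClosed_dvd (hp.isIntegral (by norm_num)) hs

private lemma exists_mult (q : ℤ[X]) (m : ℕ) (h : ¬ (X ^ 4 + 1 : ℤ[X]) ^ m ∣ q) :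
    ∃ a < m, (X ^ 4 + 1 : ℤ[X]) ^ a ∣ q ∧ ¬ (X ^ 4 + 1 : ℤ[X]) ^ (a + 1) ∣ q := by
  classical
  induction m with
  | zero => exact absurd (by simp) h
  | succ b ih =>
      by_cases hb : (X ^ 4 + 1 : ℤ[X]) ^ b ∣ q
      · exact ⟨b, Nat.lt_succ_self b, hb, h⟩
      · obtain ⟨a, ha, h1, h2⟩ := ih hb
        exact ⟨a, ha.trans (Nat.lt_succ_self b), h1, h2⟩

theorem dvd_of_order (q : ℤ[X]) (hq : q ≠ 0) (n k m : ℕ) (hn : q.natDegree ≤ n)
    (hc : ∀ i, |q.coeff i| ≤ 1) (hk : (X - 1 : ℤ[X]) ^ k ∣ q) (h : (n + 1) ^ (4 * m) < 2 ^ k) :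
    (X ^ 4 + 1 : ℤ[X]) ^ m ∣ q := by
  by_contra hnd
  obtain ⟨a, ham, ⟨r, hr⟩, ha2⟩ := exists_mult q m hnd
  have hnr : ¬ (X ^ 4 + 1 : ℤ[X]) ∣ r := by
    rintro ⟨t, rfl⟩
    apply ha2
    rw [hr]
    exact ⟨t, by ring⟩
  -- the power of `X - 1` divides `r`
  have hP : Prime (X - 1 : ℤ[X]) := by
    have := prime_X_sub_C (1 : ℤ)
    simpa using this
  have hkr : (X - 1 : ℤ[X]) ^ k ∣ r := by
    apply hP.pow_dvd_of_dvd_mul_left k (a := (X ^ 4 + 1) ^ a)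
    · rintro ⟨t, ht⟩
      have := congrArg (fun p => Polynomial.eval (1 : ℤ) p) ht
      simp at this
    · rw [← hr]; exact hk
  obtain ⟨s, hs⟩ := hkr
  -- the primitive root
  obtain ⟨ζ, h2, h1⟩ : ∃ ζ : ℂ, ζ ^ 2 = Complex.I ∧ ‖ζ‖ = 1 := by
    refine ⟨Complex.exp (Real.pi / 4 * Complex.I), ?_, ?_⟩
    · rw [← Complex.exp_nat_mul]
      have : ((2 : ℕ) : ℂ) * (Real.pi / 4 * Complex.I) = Real.pi / 2 * Complex.I := by
        push_cast; ring
      rw [this]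
      exact Complex.exp_pi_div_two_mul_I
    · have := Complex.norm_exp_ofReal_mul_I (Real.pi / 4)
      push_cast at this
      exact this
  have h4 : ζ ^ 4 = -1 := by
    calc ζ ^ 4 = (ζ ^ 2) ^ 2 := by ring
      _ = -1 := by rw [h2]; exact Complex.I_sq
  have h4' : (-ζ) ^ 4 = -1 := by rw [neg_pow, h4]; norm_num
  have h1' : ‖-ζ‖ = 1 := by rw [norm_neg, h1]
  have hX1 : Nm ζ (X - 1) = 2 := by
    unfold Nm
    rw [← norm_mul]
    have : aeval ζ (X - 1 : ℤ[X]) * aeval (-ζ) (X - 1 : ℤ[X]) = 1 - Complex.I := by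
      simp only [map_sub, aeval_X, map_one]
      linear_combination -h2
    rw [this, ← Complex.normSq_eq_norm_sq]
    simp [Complex.normSq_apply]
    norm_num
  have hN : Nm ζ r = 2 ^ k * Nm ζ s := by
    rw [hs, Nm_mul, Nm_pow, hX1]
  have hNs : 1 ≤ Nm ζ s := by
    obtain ⟨z, hz⟩ := Nm_int ζ h2 s
    have h0 : 0 ≤ Nm ζ s := by unfold Nm; positivity
    have hne : Nm ζ s ≠ 0 := by
      intro h0
      unfold Nm at h0
      have h5 := pow_eq_zero_iff (two_ne_zero) |>.1 h0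
      have h6 : (X ^ 4 + 1 : ℤ[X]) ∣ s := by
        rcases mul_eq_zero.1 h5 with h5 | h5
        · exact dvd_of_root ζ h4 s (norm_eq_zero.1 h5)
        · exact dvd_of_root (-ζ) h4' s (norm_eq_zero.1 h5)
      exact hnr (hs ▸ h6.mul_left _)
    rw [hz] at h0 hne ⊢
    have h7 : 0 ≤ z := by exact_mod_cast h0
    have h8 : z ≠ 0 := by exact_mod_cast hne
    have : 1 ≤ z := by omega
    exact_mod_cast this
  have hup : Nm ζ r ≤ ((n : ℝ) + 1) ^ (4 * m) := by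
    have b1 := root_bound q r n a hn hc hr ζ h4 h1
    have b2 := root_bound q r n a hn hc hr (-ζ) h4' h1'
    have hx : (1 : ℝ) ≤ (n : ℝ) + 1 := by
      have : (0 : ℝ) ≤ n := Nat.cast_nonneg n
      linarith
    have b3 : ((n : ℝ) + 1) ^ (a + 1) ≤ ((n : ℝ) + 1) ^ m := pow_le_pow_right₀ hx ham
    unfold Nm
    calc (‖aeval ζ r‖ * ‖aeval (-ζ) r‖) ^ 2
        ≤ (((n : ℝ) + 1) ^ m * ((n : ℝ) + 1) ^ m) ^ 2 := by
          apply pow_le_pow_left₀ (by positivity)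
          exact mul_le_mul (b1.trans b3) (b2.trans b3) (norm_nonneg _) (by positivity)
      _ = ((n : ℝ) + 1) ^ (4 * m) := by ring
  have hfin : (2 : ℝ) ^ k ≤ ((n : ℝ) + 1) ^ (4 * m) := by
    calc (2 : ℝ) ^ k = 2 ^ k * 1 := (mul_one _).symm
      _ ≤ 2 ^ k * Nm ζ s := mul_le_mul_of_nonneg_left hNs (by positivity)
      _ = Nm ζ r := hN.symm
      _ ≤ _ := hup
  have hfin2 : 2 ^ k ≤ (n + 1) ^ (4 * m) := by exact_mod_cast hfin
  omega

end Pool.Agent.H30W
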