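import Pool.Agent.H30W.Int
import Pool.Agent.H30S.Final

/-!
# The gap between integer and real coefficients
-/

set_option autoImplicit false

open Finset Polynomial Real Filter

namespace Pool.Agent.H30W

lemma gap_large : ∀ᶠ n : ℕ in atTop, 1 ≤ n ∧
    300 * (n : ℝ) ^ (2 / 5 : ℝ) * log (n + 1) ≤ √(n : ℝ) / log n ^ 9 / 2 := by
  have h3 : (fun x : ℝ => log x ^ 100) =o[atTop] (id : ℝ → ℝ) := isLittleO_pow_log_id_atTop
  have h4 := h3.bound (show (0 : ℝ) < 1 / 1200 ^ 10 by norm_num)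
  have h5 := tendsto_natCast_atTop_atTop (R := ℝ) |>.eventually h4
  have hlog : Tendsto (fun n : ℕ => log (n : ℝ)) atTop atTop :=
    tendsto_log_atTop.comp tendsto_natCast_atTop_atTop
  filter_upwards [h5, hlog.eventually_ge_atTop 1, eventually_ge_atTop 1] with n hn hl hn1
  refine ⟨hn1, ?_⟩
  have hn0 : (0 : ℝ) < n := by exact_mod_cast hn1
  have hn1' : (1 : ℝ) ≤ n := by exact_mod_cast hn1
  rw [norm_eq_abs, id, norm_eq_abs, abs_of_nonneg hn0.le] at hn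
  have h6 : log (n : ℝ) ^ 100 ≤ 1 / 1200 ^ 10 * n := (le_abs_self _).trans hn
  generalize hlv : log (n : ℝ) = l at hl h6
  have hl0 : 0 < l := by linarith
  -- `1200 l ^ 10 ≤ n ^ (1/10)`
  have h7 : 1200 * l ^ 10 ≤ (n : ℝ) ^ (1 / 10 : ℝ) := by
    have h8 : (1200 * l ^ 10) ^ 10 ≤ (n : ℝ) := by
      have : (1200 * l ^ 10) ^ 10 = 1200 ^ 10 * l ^ 100 := by ring
      rw [this]
      have h9 : 1200 ^ 10 * l ^ 100 ≤ 1200 ^ 10 * (1 / 1200 ^ 10 * (n : ℝ)) :=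
        mul_le_mul_of_nonneg_left h6 (by positivity)
      refine h9.trans (le_of_eq ?_)
      field_simp
    have h9 : ((1200 * l ^ 10) ^ 10) ^ (1 / 10 : ℝ) ≤ (n : ℝ) ^ (1 / 10 : ℝ) :=
      rpow_le_rpow (by positivity) h8 (by norm_num)
    refine le_trans (le_of_eq ?_) h9
    have h10 : (0 : ℝ) ≤ 1200 * l ^ 10 := by positivity
    generalize 1200 * l ^ 10 = y at h10
    rw [← rpow_natCast y 10, ← rpow_mul h10]
    norm_num
  have h8 : √(n : ℝ) = (n : ℝ) ^ (1 / 10 : ℝ) * (n : ℝ) ^ (2 / 5 : ℝ) := by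
    rw [sqrt_eq_rpow, ← rpow_add hn0]
    norm_num
  have h9 : log ((n : ℝ) + 1) ≤ 2 * l := by
    have h10 : log ((n : ℝ) + 1) ≤ log (2 * n) := log_le_log (by linarith) (by linarith)
    rw [log_mul (by norm_num) hn0.ne', hlv] at h10
    have := log_two_lt_d9
    linarith
  have hp : 0 < (n : ℝ) ^ (2 / 5 : ℝ) := rpow_pos_of_pos hn0 _
  rw [h8, div_div, le_div_iff₀ (by positivity)]
  calc 300 * (n : ℝ) ^ (2 / 5 : ℝ) * log ((n : ℝ) + 1) * (l ^ 9 * 2)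
      ≤ 300 * (n : ℝ) ^ (2 / 5 : ℝ) * (2 * l) * (l ^ 9 * 2) := by
        apply mul_le_mul_of_nonneg_right _ (by positivity)
        exact mul_le_mul_of_nonneg_left h9 (by positivity)
    _ = (1200 * l ^ 10) * (n : ℝ) ^ (2 / 5 : ℝ) := by ring
    _ ≤ _ := mul_le_mul_of_nonneg_right h7 hp.le

/-- the real maximum is larger than the order of any `P ∈ F_n` -/
theorem gap : ∃ n0 : ℕ, ∀ n, n0 ≤ n → ∃ p : ℝ[X], p.natDegree ≤ n ∧ p.coeff 0 = 1 ∧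
    (∀ j, |p.coeff j| ≤ 1) ∧ ∀ (k : ℕ) (P : ℤ[X]), P.natDegree ≤ n →
    (∀ i, P.coeff i = -1 ∨ P.coeff i = 0 ∨ P.coeff i = 1) → P ≠ 0 → (X - 1 : ℤ[X]) ^ k ∣ P →
    (k : ℝ) + √(n : ℝ) / log n ^ 9 / 2 ≤ (p.rootMultiplicity 1 : ℝ) := by
  obtain ⟨n0, h⟩ := int_upper
  obtain ⟨n1, h1⟩ := eventually_atTop.1 gap_large
  refine ⟨max n0 n1, fun n hn => ?_⟩
  obtain ⟨hn1, h2⟩ := h1 n (le_of_max_le_right hn)
  obtain ⟨p, p1, p2, p3, _, p5⟩ := H30S.lower_real n hn1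
  refine ⟨p, p1, p2, p3, fun k P k1 k2 k3 k4 => ?_⟩
  have h3 := h n (le_of_max_le_left hn) k P k1 k2 k3 k4
  linarith

end Pool.Agent.H30W
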