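import Mathlib

/-!
# Numerical inequalities for the final assembly
-/

set_option autoImplicit false

open Real Filter

namespace Pool.Agent.H30W

lemma delta_bound {l n : ℝ} {J : ℕ} (c1 : (10 : ℝ) ^ 8 ≤ l) (c2 : l ^ 60 ≤ n)
    (c3 : 10 ^ 8 * (2 + 20 * log l) ≤ l) (hJ1 : l ^ 20 ≤ (J : ℝ)) (hJ2 : (J : ℝ) ≤ 2 * l ^ 20) :
    20 * (1 / l ^ 9 * (1 + log J) + J / n + 1 / √(J : ℝ)) < 1 / (100 * (30 * l ^ 4) ^ 2) := by
  have hl0 : 0 < l := by linarith
  have hl1 : 1 ≤ l := by linarith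
  have hn0 : 0 < n := lt_of_lt_of_le (by positivity) c2
  have hlogJ : log J ≤ 1 + 20 * log l := by
    have h1 : log (J : ℝ) ≤ log (2 * l ^ 20) := log_le_log (by linarith [one_le_pow₀ hl1 (n := 20)]) hJ2
    rw [log_mul (by norm_num) (by positivity), log_pow] at h1
    have h2 := log_two_lt_d9
    push_cast at h1
    linarith
  have e1 : 1 / l ^ 9 * (1 + log J) ≤ 1 / 10 ^ 8 / l ^ 8 := by
    have h1 : 1 / l ^ 9 = 1 / l / l ^ 8 := by field_simp
    have h2 : 1 + log (J : ℝ) ≤ l / 10 ^ 8 := by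
      rw [le_div_iff₀ (by norm_num)]
      linarith
    calc 1 / l ^ 9 * (1 + log J) ≤ 1 / l ^ 9 * (l / 10 ^ 8) := mul_le_mul_of_nonneg_left h2 (by positivity)
      _ = 1 / 10 ^ 8 / l ^ 8 := by field_simp
  have e2 : (J : ℝ) / n ≤ 1 / 10 ^ 8 / l ^ 8 := by
    rw [div_le_iff₀ hn0]
    have h1 : l ^ 60 * (1 / 10 ^ 8 / l ^ 8) = l ^ 52 / 10 ^ 8 := by field_simp
    have h2 : 2 * l ^ 20 ≤ l ^ 52 / 10 ^ 8 := by
      rw [le_div_iff₀ (by norm_num)]
      have h3 : l ^ 52 = l ^ 20 * l ^ 32 := by ring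
      have h4 : 2 * (10 : ℝ) ^ 8 ≤ l ^ 32 := by
        calc 2 * (10 : ℝ) ^ 8 ≤ (10 ^ 8) ^ 2 := by norm_num
          _ ≤ l ^ 2 := pow_le_pow_left₀ (by norm_num) c1 2
          _ ≤ l ^ 32 := pow_le_pow_right₀ hl1 (by norm_num)
      rw [h3]
      have h5 : 0 < l ^ 20 := by positivity
      nlinarith
    calc (J : ℝ) ≤ l ^ 52 / 10 ^ 8 := hJ2.trans h2
      _ = 1 / 10 ^ 8 / l ^ 8 * l ^ 60 := by rw [mul_comm, h1]
      _ ≤ _ := mul_le_mul_of_nonneg_left c2 (by positivity)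
  have e3 : 1 / √(J : ℝ) ≤ 1 / 10 ^ 8 / l ^ 8 := by
    have h1 : l ^ 10 ≤ √(J : ℝ) := by
      apply le_sqrt_of_sq_le
      rw [← pow_mul]
      exact hJ1
    rw [div_div]
    apply one_div_le_one_div_of_le (by positivity)
    refine le_trans ?_ h1
    have h2 : l ^ 10 = l ^ 2 * l ^ 8 := by ring
    rw [h2]
    apply mul_le_mul_of_nonneg_right _ (by positivity)
    exact c1.trans (le_self_pow₀ hl1 (by norm_num))
  have e4 : 20 * (1 / l ^ 9 * (1 + log J) + J / n + 1 / √(J : ℝ)) ≤ 60 / 10 ^ 8 / l ^ 8 := by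
    have : 60 / 10 ^ 8 / l ^ 8 = 20 * (3 * (1 / 10 ^ 8 / l ^ 8)) := by ring
    rw [this]
    linarith
  refine e4.trans_lt ?_
  have e5 : 1 / (100 * (30 * l ^ 4) ^ 2) = 1 / 90000 / l ^ 8 := by field_simp; norm_num
  rw [e5]
  apply div_lt_div_of_pos_right _ (by positivity)
  norm_num

lemma l_pow_le {l n : ℝ} (c1 : (10 : ℝ) ^ 8 ≤ l) (c2 : l ^ 60 ≤ n) : 300 * l ^ 4 ≤ n := by
  have hl0 : 0 < l := by linarith
  have hl1 : 1 ≤ l := by linarith
  have h2 : l ^ 60 = l ^ 4 * l ^ 56 := by ring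
  have h3 : l ≤ l ^ 56 := le_self_pow₀ hl1 (by norm_num)
  have h4 : 0 < l ^ 4 := by positivity
  have h5 : 300 * l ^ 4 ≤ l ^ 60 := by
    rw [h2]
    nlinarith
  linarith

lemma small_bound {l n j : ℝ} (c1 : (10 : ℝ) ^ 8 ≤ l) (c2 : l ^ 60 ≤ n) (hj0 : 0 ≤ j)
    (hj : j ≤ 30 * l ^ 4) : j * (1 / l ^ 9 + j / n) ≤ 1 / 20 := by
  have hl0 : 0 < l := by linarith
  have hl1 : 1 ≤ l := by linarith
  have hn0 : 0 < n := lt_of_lt_of_le (by positivity) c2
  have h1 : j * (1 / l ^ 9) ≤ 1 / 40 := by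
    have h2 : j * (1 / l ^ 9) ≤ 30 * l ^ 4 * (1 / l ^ 9) := mul_le_mul_of_nonneg_right hj (by positivity)
    have h3 : 30 * l ^ 4 * (1 / l ^ 9) = 30 / l ^ 5 := by field_simp
    have h4 : 30 / l ^ 5 ≤ 1 / 40 := by
      rw [div_le_div_iff₀ (by positivity) (by norm_num)]
      have : l ≤ l ^ 5 := le_self_pow₀ hl1 (by norm_num)
      linarith
    linarith
  have h5 : j * (j / n) ≤ 1 / 40 := by
    have h6 : j * j ≤ 900 * l ^ 8 := by
      calc j * j ≤ (30 * l ^ 4) * (30 * l ^ 4) := by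
            apply mul_le_mul hj hj hj0 (by positivity)
        _ = 900 * l ^ 8 := by ring
    rw [← mul_div_assoc, div_le_iff₀ hn0]
    have h7 : 900 * l ^ 8 ≤ 1 / 40 * l ^ 60 := by
      have h8 : l ^ 60 = l ^ 8 * l ^ 52 := by ring
      have h9 : l ≤ l ^ 52 := le_self_pow₀ hl1 (by norm_num)
      have h10 : 0 < l ^ 8 := by positivity
      rw [h8]
      nlinarith
    linarith
  rw [mul_add]
  linarith

lemma pow_bound {l : ℝ} {n k m : ℕ} (c1 : (10 : ℝ) ^ 8 ≤ l) (hl : log (n : ℝ) = l) (hn1 : 1 ≤ n)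
    (hm1 : (m : ℝ) ≤ √(n : ℝ) / (5 * l)) (hk : 1.5 * √(n : ℝ) ≤ k) :
    (n + 1) ^ (4 * m) < 2 ^ k := by
  have hl0 : 0 < l := by linarith
  have hn0 : (0 : ℝ) < n := by exact_mod_cast hn1
  have hs0 : 0 < √(n : ℝ) := sqrt_pos.2 hn0
  have h1 : log (((n : ℝ) + 1) ^ (4 * m)) < log ((2 : ℝ) ^ k) := by
    rw [log_pow, log_pow]
    have h2 : log ((n : ℝ) + 1) ≤ l + 1 := by
      have h3 : log ((n : ℝ) + 1) ≤ log (2 * n) := by
        apply log_le_log (by linarith)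
        have : (1 : ℝ) ≤ n := by exact_mod_cast hn1
        linarith
      rw [log_mul (by norm_num) hn0.ne', hl] at h3
      have := log_two_lt_d9
      linarith
    have h4 : (((4 * m : ℕ) : ℝ)) * log ((n : ℝ) + 1) ≤ 4 * (√(n : ℝ) / (5 * l)) * (l + 1) := by
      push_cast
      have h5 : 0 ≤ log ((n : ℝ) + 1) := log_nonneg (by linarith)
      apply mul_le_mul _ h2 h5 (by positivity)
      linarith
    have h5 : 4 * (√(n : ℝ) / (5 * l)) * (l + 1) ≤ 0.9 * √(n : ℝ) := by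
      have h6 : 4 * (√(n : ℝ) / (5 * l)) * (l + 1) = √(n : ℝ) * (4 * (l + 1) / (5 * l)) := by
        field_simp
      rw [h6]
      have h7 : 4 * (l + 1) / (5 * l) ≤ 0.9 := by
        rw [div_le_iff₀ (by positivity)]
        linarith
      nlinarith
    have h6 : 0.9 * √(n : ℝ) < k * log 2 := by
      have h7 := log_two_gt_d9
      nlinarith
    linarith
  have h2 : (((n + 1) ^ (4 * m) : ℕ) : ℝ) < ((2 ^ k : ℕ) : ℝ) := by
    push_cast
    exact (log_lt_log_iff (by positivity) (by positivity)).1 h1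
  exact_mod_cast h2

lemma m_large {l s : ℝ} (c1 : (10 : ℝ) ^ 8 ≤ l) (hs : l ^ 30 ≤ s) : 1000 ≤ s / (5 * l) := by
  have hl0 : 0 < l := by linarith
  have hl1 : 1 ≤ l := by linarith
  rw [le_div_iff₀ (by positivity)]
  have h1 : l ^ 30 = l * l ^ 29 := by ring
  have h2 : (10 : ℝ) ^ 8 ≤ l ^ 29 := c1.trans (le_self_pow₀ hl1 (by norm_num))
  have h3 : l * 5000 ≤ l * l ^ 29 := mul_le_mul_of_nonneg_left (by linarith) hl0.le
  linarith

lemma kcond1 {l n m : ℝ} (c1 : (10 : ℝ) ^ 8 ≤ l) (c2 : l ^ 60 ≤ n) (hl : log n = l)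
    (hm2 : √n / (5 * l) < m + 1) (hbig : 1000 ≤ √n / (5 * l)) :
    log (2 * n) ≤ (m - 1) * √(2 * (30 * l ^ 4) / n) := by
  have hl0 : 0 < l := by linarith
  have hn0 : 0 < n := lt_of_lt_of_le (by positivity) c2
  have hs0 : 0 < √n := sqrt_pos.2 hn0
  rw [log_mul (by norm_num) hn0.ne', hl]
  have h1 : √(2 * (30 * l ^ 4) / n) = √60 * l ^ 2 / √n := by
    rw [sqrt_div (by positivity)]
    congr 1
    have : 2 * (30 * l ^ 4) = 60 * (l ^ 2) ^ 2 := by ring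
    rw [this, sqrt_mul (by norm_num), sqrt_sq (by positivity)]
  have h2 : (7.7 : ℝ) ≤ √60 := by
    apply le_sqrt_of_sq_le
    norm_num
  rw [h1]
  have h3 : √n / (6 * l) ≤ m - 1 := by
    have h4 : √n / (6 * l) = √n / (5 * l) * (5 / 6) := by
      field_simp
    rw [h4]
    linarith
  have h5 : √n / (6 * l) * (7.7 * l ^ 2 / √n) ≤ (m - 1) * (√60 * l ^ 2 / √n) := by
    apply mul_le_mul h3 _ (by positivity) (by linarith)
    apply div_le_div_of_nonneg_right _ hs0.le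
    exact mul_le_mul_of_nonneg_right h2 (by positivity)
  have h6 : √n / (6 * l) * (7.7 * l ^ 2 / √n) = 7.7 / 6 * l := by
    field_simp
  have h7 := log_two_lt_d9
  rw [h6] at h5
  linarith

lemma kcond2 {l n m : ℝ} (c1 : (10 : ℝ) ^ 8 ≤ l) (c2 : l ^ 60 ≤ n)
    (hm1 : m ≤ √n / (5 * l)) : 3200 * (m - 1) ≤ √(30 * l ^ 4 * n) := by
  have hl0 : 0 < l := by linarith
  have hl1 : 1 ≤ l := by linarith
  have hn0 : 0 < n := lt_of_lt_of_le (by positivity) c2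
  have hs0 : 0 < √n := sqrt_pos.2 hn0
  have h1 : √(30 * l ^ 4 * n) = √30 * l ^ 2 * √n := by
    have : 30 * l ^ 4 * n = 30 * (l ^ 2) ^ 2 * n := by ring
    rw [this, sqrt_mul (by positivity), sqrt_mul (by norm_num), sqrt_sq (by positivity)]
  rw [h1]
  have h2 : (5 : ℝ) ≤ √30 := by
    apply le_sqrt_of_sq_le
    norm_num
  have h3 : m - 1 ≤ √n := by
    have : √n / (5 * l) ≤ √n := by
      apply div_le_self hs0.le
      linarith
    linarith
  have h4 : (3200 : ℝ) ≤ 5 * l ^ 2 := by nlinarith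
  have h5 : (3200 : ℝ) ≤ √30 * l ^ 2 := by
    have : 5 * l ^ 2 ≤ √30 * l ^ 2 := mul_le_mul_of_nonneg_right h2 (by positivity)
    linarith
  calc 3200 * (m - 1) ≤ 3200 * √n := by linarith
    _ ≤ √30 * l ^ 2 * √n := mul_le_mul_of_nonneg_right h5 hs0.le

/-- the conditions hold for large `n` -/
theorem eventually_large : ∀ᶠ n : ℕ in atTop, (10 : ℝ) ^ 8 ≤ log n ∧ log n ^ 60 ≤ (n : ℝ) ∧
    10 ^ 8 * (2 + 20 * log (log n)) ≤ log n := by
  have hlog : Tendsto (fun n : ℕ => log (n : ℝ)) atTop atTop :=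
    tendsto_log_atTop.comp tendsto_natCast_atTop_atTop
  have h1 : ∀ᶠ n : ℕ in atTop, (10 : ℝ) ^ 8 ≤ log n := hlog.eventually_ge_atTop _
  have h2 : ∀ᶠ n : ℕ in atTop, log (n : ℝ) ^ 60 ≤ (n : ℝ) := by
    have h3 : (fun x : ℝ => log x ^ 60) =o[atTop] (id : ℝ → ℝ) := isLittleO_pow_log_id_atTop
    have h4 := (h3.bound (show (0 : ℝ) < 1 by norm_num))
    have h5 := tendsto_natCast_atTop_atTop (R := ℝ) |>.eventually h4
    filter_upwards [h5] with n hn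
    rw [one_mul, norm_eq_abs, id, norm_eq_abs, abs_of_nonneg (Nat.cast_nonneg n : (0 : ℝ) ≤ n)] at hn
    exact (le_abs_self _).trans hn
  have h3 : ∀ᶠ x : ℝ in atTop, 10 ^ 8 * (2 + 20 * log x) ≤ x := by
    have h4 : (fun x : ℝ => log x) =o[atTop] (id : ℝ → ℝ) := by
      have := isLittleO_pow_log_id_atTop (n := 1)
      simpa using this
    have h5 := h4.bound (show (0 : ℝ) < 1 / (40 * 10 ^ 8) by norm_num)
    filter_upwards [h5, eventually_ge_atTop ((10 : ℝ) ^ 10)] with x hx hx2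
    rw [norm_eq_abs, id, norm_eq_abs, abs_of_nonneg (by linarith : (0 : ℝ) ≤ x)] at hx
    have h6 := (le_abs_self (log x)).trans hx
    have h7 : 1 / (40 * 10 ^ 8) * x = x / (40 * 10 ^ 8) := by ring
    rw [h7, le_div_iff₀ (by norm_num)] at h6
    linarith
  filter_upwards [h1, h2, hlog.eventually h3] with n a b c
  exact ⟨a, b, c⟩

end Pool.Agent.H30W
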