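import Pool.Agent.H30V.Fin

set_option autoImplicit false

open Finset Polynomial Real

namespace Pool.Agent.H30W

open Pool.Agent.H30V

/-- the distance of the square root of a nonsquare from the integers -/
theorem n2_sin {j : ℕ} (hj : 2 ≤ j) (hns : Nat.sqrt j ^ 2 ≠ j) :
    2 / (3 * √(j : ℝ)) ≤ (-1 : ℝ) ^ (Nat.sqrt j) * sin (π * √(j : ℝ)) := by
  obtain ⟨v, hv⟩ : ∃ v, v = Nat.sqrt j := ⟨_, rfl⟩
  rw [← hv] at hns ⊢
  have h1 : v ^ 2 ≤ j := by rw [hv, sq]; exact Nat.sqrt_le j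
  have h2 : j < (v + 1) ^ 2 := by rw [hv]; exact Nat.lt_succ_sqrt' j
  have h3 : v ^ 2 + 1 ≤ j := by omega
  have h4 : (v : ℝ) ^ 2 + 1 ≤ j := by exact_mod_cast h3
  have h5 : (j : ℝ) + 1 ≤ ((v : ℝ) + 1) ^ 2 := by exact_mod_cast h2
  have hj' : (2 : ℝ) ≤ j := by exact_mod_cast hj
  have hv0 : (0 : ℝ) ≤ v := Nat.cast_nonneg v
  have hr0 : 0 < √(j : ℝ) := sqrt_pos.2 (by linarith)
  have hr2 : √(j : ℝ) ^ 2 = j := sq_sqrt (by linarith)
  have hr1 : 1 ≤ √(j : ℝ) := by nlinarith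
  obtain ⟨r, hr⟩ : ∃ r, r = √(j : ℝ) := ⟨_, rfl⟩
  rw [← hr] at hr0 hr2 hr1 ⊢
  obtain ⟨d, hd⟩ : ∃ d, d = r - v := ⟨_, rfl⟩
  have hrd : r = v + d := by rw [hd]; ring
  have hsin : (-1 : ℝ) ^ v * sin (π * r) = sin (π * d) := by
    have e1 : π * r = π * d + v * π := by rw [hrd]; ring
    rw [e1, sin_add_nat_mul_pi, ← mul_assoc, ← pow_add, ← two_mul, pow_mul]
    norm_num
  rw [hsin]
  have hlow : 1 / (3 * r) ≤ d := by
    rw [div_le_iff₀ (by positivity)]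
    have hvr : (v : ℝ) ≤ r := by nlinarith
    nlinarith
  have hup : 1 / (3 * r) ≤ 1 - d := by
    rw [div_le_iff₀ (by positivity)]
    have hvr : (v : ℝ) ≤ r := by nlinarith
    have hrv : r ≤ v + 1 := by nlinarith
    have h6 : (v + 1 - r) * (v + 1 + r) ≤ (v + 1 - r) * (3 * r) :=
      mul_le_mul_of_nonneg_left (by linarith) (by linarith)
    have h7 : (v + 1 - r) * (v + 1 + r) = (v + 1 : ℝ) ^ 2 - r ^ 2 := by ring
    have h8 : 1 - d = v + 1 - r := by rw [hd]; ring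
    rw [h8]
    linarith
  have hd0 : 0 ≤ d := le_trans (by positivity) hlow
  have hd1 : d ≤ 1 := by
    have : 0 ≤ 1 - d := le_trans (by positivity) hup
    linarith
  have e2 : 2 / (3 * r) = 2 * (1 / (3 * r)) := by ring
  rw [e2]
  rcases le_total d (1 / 2) with h | h
  · have h6 := mul_le_sin (x := π * d) (by positivity) (by nlinarith [pi_pos])
    have h7 : 2 / π * (π * d) = 2 * d := by field_simp
    rw [h7] at h6
    linarith
  · have h6 := mul_le_sin (x := π * (1 - d)) (mul_nonneg pi_pos.le (by linarith))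
      (by nlinarith [pi_pos])
    have h7 : 2 / π * (π * (1 - d)) = 2 * (1 - d) := by field_simp
    have h8 : sin (π * (1 - d)) = sin (π * d) := by
      rw [mul_sub, mul_one, sin_pi_sub]
    rw [h7, h8] at h6
    linarith

/-- MODULE N2 (sign and size of the certificate at nonsquares; see `Pool/Agent/H30V/Poly.lean`: `QP_closed`, `s_sq`, `s_gt_h`;
`Lim.lean`: `phase_bound`; `Sum.lean`: `sign_sin`). With `x = ρ j > 1`, `s M x ^ 2 = j / n`:
`|sin (2M arcsin s) - sin (π√j)| ≤ |2M arcsin s - π√(ρj)| + π (1-√ρ) √j ≤ π √j (j/n + η) ≤ 0.158/√j`;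
`dist (√j, ℤ) ≥ 1/(2√j+1) ≥ 1/(3√j)`, so `(-1)^(sqrt j) sin (π√j) ≥ 2/(3√j)`; `cos (arcsin s) = √(1 - j/n) ≥ 0.9`;
the denominator `π √x (s²/h² - 1)` is positive and at most `π √j (π²/4) j` (`h = sin (π/2M) ≥ 1/M`). -/
theorem low_bound {M n j : ℕ} {ρ η : ℝ} (hM : 2 ≤ M) (hn : 1 ≤ n) (hρ : L M = ρ * n) (hρ1 : ρ ≤ 1)
    (hη0 : 0 ≤ η) (hη1 : η ≤ 1 / 100) (hη : 1 - η ≤ √ρ) (hj : 2 ≤ j) (hjn : j ≤ n)
    (hns : Nat.sqrt j ^ 2 ≠ j) (hsmall : (j : ℝ) * (η + j / n) ≤ 1 / 20) :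
    1 / (100 * (j : ℝ) ^ 2) ≤ -((-1 : ℝ) ^ (Nat.sqrt j) * (QP M).eval (ρ * (j : ℝ))) := by
  have hρ0 : 0 < ρ := sqrt_pos.1 (by linarith)
  have hj' : (2 : ℝ) ≤ j := by exact_mod_cast hj
  have hn' : (1 : ℝ) ≤ n := by exact_mod_cast hn
  have hn0 : (0 : ℝ) < n := by linarith
  have hjn' : (j : ℝ) ≤ n := by exact_mod_cast hjn
  have hM2 : (2 : ℝ) ≤ M := by exact_mod_cast hM
  have hM' : (0 : ℝ) < M := by linarith
  have hx0 : 0 ≤ ρ * (j : ℝ) := by positivity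
  have hjL : ρ * (j : ℝ) ≤ L M := by
    rw [hρ]
    exact mul_le_mul_of_nonneg_left hjn' hρ0.le
  have hsq0 : 0 ≤ √ρ := sqrt_nonneg _
  have hsq1 : √ρ ≤ 1 := by
    rw [sqrt_le_left (by norm_num)]
    simpa using hρ1
  have hρ2 : (1 - η) ^ 2 ≤ ρ := by
    have h1 : (1 - η) ^ 2 ≤ √ρ ^ 2 := pow_le_pow_left₀ (by linarith) hη 2
    rwa [sq_sqrt hρ0.le] at h1
  have hρ3 : 0.98 ≤ ρ := by nlinarith
  have hx1 : 1 < ρ * (j : ℝ) := by nlinarith
  have hs : s M (ρ * (j : ℝ)) ^ 2 = j / n := by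
    rw [s_sq (by omega) hx0, hρ]
    field_simp
  have hsj : 0 < √(j : ℝ) := sqrt_pos.2 (by linarith)
  have hsj2 : √(j : ℝ) * √(j : ℝ) = j := mul_self_sqrt (by linarith)
  have hsr : √(ρ * (j : ℝ)) = √ρ * √(j : ℝ) := sqrt_mul hρ0.le _
  have hsin := n2_sin hj hns
  have hphase := phase_bound (M := M) (by omega) (x := ρ * (j : ℝ)) hx0 hjL
  rw [hs, hsr] at hphase
  have hjn0 : 0 ≤ (j : ℝ) / n := by positivity
  have hη20 : (j : ℝ) * η + j * (j / n) ≤ 1 / 20 := by rw [← mul_add]; exact hsmall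
  -- the sine
  have herr : |sin (2 * M * arcsin (s M (ρ * j))) - sin (π * √(j : ℝ))| ≤ 0.158 / √(j : ℝ) := by
    refine (abs_sin_sub_sin_le _ _).trans ?_
    have e1 : 2 * M * arcsin (s M (ρ * j)) - π * √(j : ℝ) =
        (2 * M * arcsin (s M (ρ * j)) - π * (√ρ * √(j : ℝ))) - π * √(j : ℝ) * (1 - √ρ) := by
      ring
    rw [e1]
    refine (abs_sub _ _).trans ?_
    have h5 : |π * √(j : ℝ) * (1 - √ρ)| ≤ π * √(j : ℝ) * η := by
      rw [abs_of_nonneg (mul_nonneg (by positivity) (by linarith))]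
      exact mul_le_mul_of_nonneg_left (by linarith) (by positivity)
    have h6 : 2 / 3 * (π * (√ρ * √(j : ℝ))) * (j / n) ≤ π * √(j : ℝ) * (j / n) := by
      apply mul_le_mul_of_nonneg_right _ hjn0
      have h7 : √ρ * √(j : ℝ) ≤ √(j : ℝ) := mul_le_of_le_one_left hsj.le hsq1
      have h8 : π * (√ρ * √(j : ℝ)) ≤ π * √(j : ℝ) := mul_le_mul_of_nonneg_left h7 pi_pos.le
      have h9 : 0 ≤ π * (√ρ * √(j : ℝ)) := by positivity
      linarith
    have h7 : π * √(j : ℝ) * (j / n) + π * √(j : ℝ) * η ≤ 0.158 / √(j : ℝ) := by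
      rw [le_div_iff₀ hsj]
      have e2 : (π * √(j : ℝ) * (j / n) + π * √(j : ℝ) * η) * √(j : ℝ) =
          π * (√(j : ℝ) * √(j : ℝ)) * (j / n) + π * (√(j : ℝ) * √(j : ℝ)) * η := by ring
      rw [e2, hsj2]
      have e3 : π * (j : ℝ) * (j / n) + π * (j : ℝ) * η = π * ((j : ℝ) * η + j * (j / n)) := by
        ring
      rw [e3]
      have h8 : π * ((j : ℝ) * η + j * (j / n)) ≤ π * (1 / 20) :=
        mul_le_mul_of_nonneg_left hη20 pi_pos.le
      have h9 := pi_lt_d2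
      linarith
    linarith
  have hlow : 0.5 / √(j : ℝ) ≤
      (-1 : ℝ) ^ (Nat.sqrt j) * sin (2 * M * arcsin (s M (ρ * j))) := by
    have h1 : |(-1 : ℝ) ^ (Nat.sqrt j) * (sin (2 * M * arcsin (s M (ρ * j))) -
        sin (π * √(j : ℝ)))| ≤ 0.158 / √(j : ℝ) := by
      rw [abs_mul, abs_pow, abs_neg, abs_one, one_pow, one_mul]
      exact herr
    have h2 := (abs_le.1 h1).1
    rw [mul_sub] at h2
    have h3 : 2 / (3 * √(j : ℝ)) = (2 / 3) / √(j : ℝ) := by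
      rw [div_div]
    rw [h3] at hsin
    have h4 : 0.5 / √(j : ℝ) ≤ (2 / 3) / √(j : ℝ) - 0.158 / √(j : ℝ) := by
      rw [← sub_div]
      exact div_le_div_of_nonneg_right (by norm_num) hsj.le
    linarith
  -- the cosine
  have hcos : 0.9 ≤ cos (arcsin (s M (ρ * j))) := by
    rw [cos_arcsin, hs]
    have h1 : (j : ℝ) / n ≤ 1 / 20 := by
      have h2 : (j : ℝ) * (j / n) ≤ 1 / 20 := by
        have : 0 ≤ (j : ℝ) * η := by positivity
        linarith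
      nlinarith
    apply le_sqrt_of_sq_le
    nlinarith
  -- the denominator
  have hh := h_pos hM
  have hh1 : 1 / (M : ℝ) ≤ sin (π / (2 * M)) := by
    have h1 := mul_le_sin (x := π / (2 * M)) (by positivity) (by
      rw [div_le_div_iff₀ (by positivity) (by norm_num)]
      nlinarith [pi_pos])
    have h2 : 2 / π * (π / (2 * M)) = 1 / M := by field_simp
    rwa [h2] at h1
  have hratio : s M (ρ * j) ^ 2 / sin (π / (2 * M)) ^ 2 ≤ π ^ 2 / 4 * j := by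
    have h1 : (1 / (M : ℝ)) ^ 2 ≤ sin (π / (2 * M)) ^ 2 :=
      pow_le_pow_left₀ (by positivity) hh1 2
    calc s M (ρ * j) ^ 2 / sin (π / (2 * M)) ^ 2 ≤ s M (ρ * j) ^ 2 / (1 / (M : ℝ)) ^ 2 :=
          div_le_div_of_nonneg_left (sq_nonneg _) (by positivity) h1
      _ = π ^ 2 / 4 * (ρ * j) := by
          unfold s
          rw [div_pow, mul_pow, sq_sqrt hx0]
          field_simp
          ring
      _ ≤ π ^ 2 / 4 * j := by
          apply mul_le_mul_of_nonneg_left _ (by positivity)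
          exact mul_le_of_le_one_left (by linarith) hρ1
  have hgt := s_gt_h hM hx1.le
  have hden0 : 0 < π * √(ρ * (j : ℝ)) * (s M (ρ * j) ^ 2 / sin (π / (2 * M)) ^ 2 - 1) := by
    apply mul_pos
    · exact mul_pos pi_pos (sqrt_pos.2 (by linarith))
    · linarith
  have hden1 : π * √(ρ * (j : ℝ)) * (s M (ρ * j) ^ 2 / sin (π / (2 * M)) ^ 2 - 1) ≤
      8 * (√(j : ℝ) * j) := by
    have h1 : π * √(ρ * (j : ℝ)) ≤ π * √(j : ℝ) := by
      rw [hsr]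
      exact mul_le_mul_of_nonneg_left (mul_le_of_le_one_left hsj.le hsq1) pi_pos.le
    calc π * √(ρ * (j : ℝ)) * (s M (ρ * j) ^ 2 / sin (π / (2 * M)) ^ 2 - 1)
        ≤ π * √(j : ℝ) * (π ^ 2 / 4 * j) :=
          mul_le_mul h1 (by linarith) (by linarith) (by positivity)
      _ = π ^ 3 / 4 * (√(j : ℝ) * j) := by ring
      _ ≤ 8 * (√(j : ℝ) * j) := by
          apply mul_le_mul_of_nonneg_right _ (by positivity)
          have h2 : π ^ 3 ≤ 3.15 ^ 3 := pow_le_pow_left₀ pi_pos.le pi_lt_d2.le 3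
          have h3 : (3.15 : ℝ) ^ 3 ≤ 32 := by norm_num
          linarith
  rw [QP_closed hM hx1 hjL]
  obtain ⟨D, hD⟩ : ∃ D, D = π * √(ρ * (j : ℝ)) *
    (s M (ρ * j) ^ 2 / sin (π / (2 * M)) ^ 2 - 1) := ⟨_, rfl⟩
  rw [← hD] at hden0 hden1 ⊢
  obtain ⟨S, hS⟩ : ∃ S, S = sin (2 * M * arcsin (s M (ρ * j))) := ⟨_, rfl⟩
  obtain ⟨Cc, hC⟩ : ∃ Cc, Cc = cos (arcsin (s M (ρ * j))) := ⟨_, rfl⟩
  rw [← hS] at hlow ⊢
  rw [← hC] at hcos ⊢
  obtain ⟨e, he⟩ : ∃ e, e = (-1 : ℝ) ^ (Nat.sqrt j) := ⟨_, rfl⟩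
  rw [← he] at hlow ⊢
  have e1 : -(e * (-(S * Cc) / D)) = e * S * Cc / D := by ring
  rw [e1]
  have h1 : 0.45 / √(j : ℝ) ≤ e * S * Cc := by
    calc 0.45 / √(j : ℝ) = 0.5 / √(j : ℝ) * 0.9 := by ring
      _ ≤ e * S * Cc := by
          apply mul_le_mul hlow hcos (by norm_num)
          exact le_trans (by positivity) hlow
  calc 1 / (100 * (j : ℝ) ^ 2) ≤ 0.45 / √(j : ℝ) / (8 * (√(j : ℝ) * j)) := by
        rw [div_div, div_le_div_iff₀ (by positivity) (by positivity)]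
        have e2 : √(j : ℝ) * (8 * (√(j : ℝ) * j)) = 8 * ((√(j : ℝ) * √(j : ℝ)) * j) := by ring
        rw [e2, hsj2]
        nlinarith
    _ ≤ e * S * Cc / D := by
        apply div_le_div₀ (le_trans (by positivity) h1) h1 hden0 hden1

end Pool.Agent.H30W
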