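import Pool.Agent.H30V.Fin

/-!
# The sum of the absolute values of the rescaled certificate
-/

set_option autoImplicit false

open Finset Polynomial Real

namespace Pool.Agent.H30W

open Pool.Agent.H30V

theorem s1_rho_pos {ρ η : ℝ} (hη1 : η ≤ 1 / 100) (hη : 1 - η ≤ √ρ) : 0 < ρ :=
  sqrt_pos.1 (by linarith)

theorem s1_sqrt_le {ρ : ℝ} (hρ1 : ρ ≤ 1) : √ρ ≤ 1 := by
  rw [sqrt_le_left (by norm_num)]
  simpa using hρ1

/-- the first term -/
theorem s1_one {M n : ℕ} {ρ η : ℝ} (hM : 2 ≤ M) (hn : 1 ≤ n) (hρ : L M = ρ * n) (hρ1 : ρ ≤ 1)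
    (hη0 : 0 ≤ η) (hη1 : η ≤ 1 / 100) (hη : 1 - η ≤ √ρ) :
    |(QP M).eval ρ| ≤ 1 / 2 + 2.1 / n + 3.15 * η := by
  have hρ0 := s1_rho_pos hη1 hη
  have hn' : (1 : ℝ) ≤ n := by exact_mod_cast hn
  have hn0 : (0 : ℝ) < n := by linarith
  have hρL : ρ ≤ L M := by rw [hρ]; nlinarith
  have hM' : (0 : ℝ) < M := by positivity
  have hsq0 : 0 ≤ √ρ := sqrt_nonneg _
  have hsq1 := s1_sqrt_le hρ1
  have h1 := phase_bound (M := M) (by omega) (x := ρ) hρ0.le hρL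
  rw [QP_eval' (by omega) hρ0.le hρL]
  have h2 := K_lip M hM (2 * arcsin (s M ρ)) (π / M)
  rw [K_pi_div M hM] at h2
  have hs : s M ρ ^ 2 = 1 / n := by
    rw [s_sq (by omega) hρ0.le, hρ]
    field_simp
  have h3 : |(M : ℝ) * (2 * arcsin (s M ρ)) - M * (π / M)| ≤ 2.1 / n + 3.15 * η := by
    have e1 : (M : ℝ) * (2 * arcsin (s M ρ)) - M * (π / M) =
        (2 * M * arcsin (s M ρ) - π * √ρ) - π * (1 - √ρ) := by
      field_simp
      ring
    rw [e1]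
    refine (abs_sub _ _).trans ?_
    have h4 : 2 / 3 * (π * √ρ) * s M ρ ^ 2 ≤ 2.1 / n := by
      rw [hs]
      have h6 : 2 / 3 * (π * √ρ) ≤ 2.1 := by nlinarith [pi_lt_d2, pi_pos]
      calc 2 / 3 * (π * √ρ) * (1 / (n : ℝ)) ≤ 2.1 * (1 / n) :=
            mul_le_mul_of_nonneg_right h6 (by positivity)
        _ = 2.1 / n := by ring
    have h5 : |π * (1 - √ρ)| ≤ 3.15 * η := by
      rw [abs_of_nonneg (mul_nonneg pi_pos.le (by linarith))]
      have h6 : 1 - √ρ ≤ η := by linarith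
      have h7 : 0 ≤ 1 - √ρ := by linarith
      calc π * (1 - √ρ) ≤ 3.15 * (1 - √ρ) :=
            mul_le_mul_of_nonneg_right pi_lt_d2.le h7
        _ ≤ 3.15 * η := mul_le_mul_of_nonneg_left h6 (by norm_num)
    linarith
  have h5 : |K M (2 * arcsin (s M ρ))| ≤ |K M (2 * arcsin (s M ρ)) - 1 / 2| + |(1 / 2 : ℝ)| := by
    have := abs_add_le (K M (2 * arcsin (s M ρ)) - 1 / 2) (1 / 2)
    simpa using this
  have h6 : |(1 / 2 : ℝ)| = 1 / 2 := abs_of_pos (by norm_num)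
  linarith

/-- the denominator -/
theorem s1_den {ρ η : ℝ} (hρ1 : ρ ≤ 1) (hη0 : 0 ≤ η) (hη1 : η ≤ 1 / 100) (hη : 1 - η ≤ √ρ)
    {x : ℝ} (hx : 2 ≤ x) :
    1 < ρ * x ∧ 1 / (π * √(ρ * x) * (ρ * x - 1)) ≤ (1 + 6 * η) * (1 / (π * √x * (x - 1))) := by
  have hρ0 := s1_rho_pos hη1 hη
  have hsq0 : 0 ≤ √ρ := sqrt_nonneg _
  have hρ2 : (1 - η) ^ 2 ≤ ρ := by
    have h1 : (1 - η) ^ 2 ≤ √ρ ^ 2 := pow_le_pow_left₀ (by linarith) hη 2
    rwa [sq_sqrt hρ0.le] at h1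
  have hρ3 : 1 - 2 * η ≤ ρ := by nlinarith
  have h1 : (x - 1) * (1 - 4 * η) ≤ ρ * x - 1 := by nlinarith
  have hx1 : 0 < (x - 1) * (1 - 4 * η) := mul_pos (by linarith) (by linarith)
  refine ⟨by linarith, ?_⟩
  have hsx : 0 < √x := sqrt_pos.2 (by linarith)
  have hsr : √(ρ * x) = √ρ * √x := sqrt_mul hρ0.le x
  have h2 : (1 - η) * √x ≤ √(ρ * x) := by
    rw [hsr]
    exact mul_le_mul_of_nonneg_right hη hsx.le
  have h3 : π * ((1 - η) * √x) * ((x - 1) * (1 - 4 * η)) ≤ π * √(ρ * x) * (ρ * x - 1) := by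
    apply mul_le_mul _ h1 hx1.le
    · positivity
    · exact mul_le_mul_of_nonneg_left h2 pi_pos.le
  have hpos : 0 < π * ((1 - η) * √x) * ((x - 1) * (1 - 4 * η)) := by
    apply mul_pos _ hx1
    apply mul_pos pi_pos
    exact mul_pos (by linarith) hsx
  have hpos2 : 0 < π * √x * (x - 1) := mul_pos (mul_pos pi_pos hsx) (by linarith)
  calc 1 / (π * √(ρ * x) * (ρ * x - 1))
      ≤ 1 / (π * ((1 - η) * √x) * ((x - 1) * (1 - 4 * η))) := one_div_le_one_div_of_le hpos h3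
    _ ≤ (1 + 6 * η) * (1 / (π * √x * (x - 1))) := by
        rw [mul_one_div, div_le_div_iff₀ hpos hpos2]
        have h4 : 1 ≤ (1 + 6 * η) * ((1 - η) * (1 - 4 * η)) := by nlinarith [mul_nonneg hη0 hη0]
        calc 1 * (π * √x * (x - 1)) ≤ ((1 + 6 * η) * ((1 - η) * (1 - 4 * η))) *
              (π * √x * (x - 1)) := mul_le_mul_of_nonneg_right h4 hpos2.le
          _ = (1 + 6 * η) * (π * ((1 - η) * √x) * ((x - 1) * (1 - 4 * η))) := by ring

/-- the further terms -/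
theorem s1_j {M n : ℕ} {ρ η : ℝ} (hM : 2 ≤ M) (hρ : L M = ρ * n) (hρ1 : ρ ≤ 1)
    (hη0 : 0 ≤ η) (hη1 : η ≤ 1 / 100) (hη : 1 - η ≤ √ρ) (j : ℕ) (hj : 2 ≤ j) (hjn : j ≤ n) :
    |(QP M).eval (ρ * (j : ℝ))| ≤ |sin (2 * M * arcsin (s M (ρ * j)))| *
      ((1 + 6 * η) * (1 / (π * √(j : ℝ) * (j - 1)))) := by
  have hρ0 := s1_rho_pos hη1 hη
  have hj' : (2 : ℝ) ≤ j := by exact_mod_cast hj
  have hjn' : (j : ℝ) ≤ n := by exact_mod_cast hjn
  have hjL : ρ * (j : ℝ) ≤ L M := by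
    rw [hρ]
    exact mul_le_mul_of_nonneg_left hjn' hρ0.le
  obtain ⟨h1, h2⟩ := s1_den hρ1 hη0 hη1 hη hj'
  refine (QP_bound hM h1 hjL).trans ?_
  rw [div_eq_mul_one_div]
  exact mul_le_mul_of_nonneg_left h2 (abs_nonneg _)

theorem s1_small {M n : ℕ} {ρ η : ℝ} (hM : 2 ≤ M) (hρ : L M = ρ * n) (hρ1 : ρ ≤ 1)
    (hη0 : 0 ≤ η) (hη1 : η ≤ 1 / 100) (hη : 1 - η ≤ √ρ) (j : ℕ) (hj : 2 ≤ j) (hjn : j ≤ n) :
    |(QP M).eval (ρ * (j : ℝ))| ≤ (1 + 6 * η) * (|g j| + 4 / 3 / n + 2 * η * (1 / j)) := by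
  have hρ0 := s1_rho_pos hη1 hη
  have hj' : (2 : ℝ) ≤ j := by exact_mod_cast hj
  have hjn' : (j : ℝ) ≤ n := by exact_mod_cast hjn
  have hn' : (0 : ℝ) < n := by linarith
  have hjL : ρ * (j : ℝ) ≤ L M := by
    rw [hρ]
    exact mul_le_mul_of_nonneg_left hjn' hρ0.le
  have hx0 : 0 ≤ ρ * (j : ℝ) := by positivity
  refine (s1_j hM hρ hρ1 hη0 hη1 hη j hj hjn).trans ?_
  have hsq1 := s1_sqrt_le hρ1
  have hsq0 : 0 ≤ √ρ := sqrt_nonneg _
  have hsj : 0 < √(j : ℝ) := sqrt_pos.2 (by linarith)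
  have hsr : √(ρ * (j : ℝ)) = √ρ * √(j : ℝ) := sqrt_mul hρ0.le _
  have hs : s M (ρ * (j : ℝ)) ^ 2 = j / n := by
    rw [s_sq (by omega) hx0, hρ]
    field_simp
  have h1 := phase_bound (M := M) (by omega) (x := ρ * (j : ℝ)) hx0 hjL
  rw [hs, hsr] at h1
  have h2 : |sin (2 * M * arcsin (s M (ρ * j)))| ≤ |sin (π * √(j : ℝ))| +
      2 / 3 * (π * √(j : ℝ)) * (j / n) + π * η * √(j : ℝ) := by
    have h3 : |sin (2 * M * arcsin (s M (ρ * j))) - sin (π * √(j : ℝ))| ≤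
        |2 * M * arcsin (s M (ρ * j)) - π * √(j : ℝ)| := abs_sin_sub_sin_le _ _
    have h4 := abs_add_le (sin (2 * M * arcsin (s M (ρ * j))) - sin (π * √(j : ℝ)))
      (sin (π * √(j : ℝ)))
    rw [sub_add_cancel] at h4
    have e1 : 2 * M * arcsin (s M (ρ * j)) - π * √(j : ℝ) =
        (2 * M * arcsin (s M (ρ * j)) - π * (√ρ * √(j : ℝ))) - π * √(j : ℝ) * (1 - √ρ) := by
      ring
    have h5 : |2 * M * arcsin (s M (ρ * j)) - π * √(j : ℝ)| ≤
        |2 * M * arcsin (s M (ρ * j)) - π * (√ρ * √(j : ℝ))| + |π * √(j : ℝ) * (1 - √ρ)| := by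
      rw [e1]
      exact abs_sub _ _
    have h6 : |π * √(j : ℝ) * (1 - √ρ)| ≤ π * η * √(j : ℝ) := by
      rw [abs_of_nonneg (mul_nonneg (mul_nonneg pi_pos.le hsj.le) (by linarith))]
      have h7 : 1 - √ρ ≤ η := by linarith
      calc π * √(j : ℝ) * (1 - √ρ) ≤ π * √(j : ℝ) * η :=
            mul_le_mul_of_nonneg_left h7 (by positivity)
        _ = π * η * √(j : ℝ) := by ring
    have h7 : 2 / 3 * (π * (√ρ * √(j : ℝ))) * ((j : ℝ) / n) ≤
        2 / 3 * (π * √(j : ℝ)) * ((j : ℝ) / n) := by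
      apply mul_le_mul_of_nonneg_right _ (by positivity)
      apply mul_le_mul_of_nonneg_left _ (by norm_num)
      apply mul_le_mul_of_nonneg_left _ pi_pos.le
      exact mul_le_of_le_one_left hsj.le hsq1
    linarith
  have hj1 : (0 : ℝ) < j - 1 := by linarith
  have hden : 0 < π * √(j : ℝ) * (j - 1) := by positivity
  have hg : |g j| = |sin (π * √(j : ℝ))| / (π * √(j : ℝ) * (j - 1)) := by
    unfold g
    rw [if_neg (by omega), if_neg (by omega), abs_div, abs_neg, abs_of_pos hden]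
  have h8 : (|sin (π * √(j : ℝ))| + 2 / 3 * (π * √(j : ℝ)) * (j / n) + π * η * √(j : ℝ)) *
      (1 / (π * √(j : ℝ) * (j - 1))) ≤ |g j| + 4 / 3 / n + 2 * η * (1 / j) := by
    have e1 : (|sin (π * √(j : ℝ))| + 2 / 3 * (π * √(j : ℝ)) * (j / n) + π * η * √(j : ℝ)) *
      (1 / (π * √(j : ℝ) * (j - 1))) = |g j| + 2 / 3 * ((j : ℝ) / n) / (j - 1) +
        η / (j - 1) := by
      rw [hg]
      field_simp
    rw [e1]
    have h9 : 2 / 3 * ((j : ℝ) / n) / (j - 1) ≤ 4 / 3 / n := by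
      rw [div_le_div_iff₀ hj1 hn']
      have : 2 / 3 * ((j : ℝ) / n) * n = 2 / 3 * j := by field_simp
      rw [this]
      linarith
    have h10 : η / ((j : ℝ) - 1) ≤ 2 * η * (1 / j) := by
      rw [mul_one_div, div_le_div_iff₀ hj1 (by linarith)]
      nlinarith
    linarith
  calc |sin (2 * M * arcsin (s M (ρ * j)))| * ((1 + 6 * η) * (1 / (π * √(j : ℝ) * (j - 1))))
      ≤ (|sin (π * √(j : ℝ))| + 2 / 3 * (π * √(j : ℝ)) * (j / n) + π * η * √(j : ℝ)) *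
        ((1 + 6 * η) * (1 / (π * √(j : ℝ) * (j - 1)))) := by
        apply mul_le_mul_of_nonneg_right h2
        have : 0 ≤ 1 + 6 * η := by linarith
        positivity
    _ = (1 + 6 * η) * ((|sin (π * √(j : ℝ))| + 2 / 3 * (π * √(j : ℝ)) * (j / n) +
        π * η * √(j : ℝ)) * (1 / (π * √(j : ℝ) * (j - 1)))) := by ring
    _ ≤ _ := mul_le_mul_of_nonneg_left h8 (by linarith)

theorem s1_big {M n : ℕ} {ρ η : ℝ} (hM : 2 ≤ M) (hρ : L M = ρ * n) (hρ1 : ρ ≤ 1)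
    (hη0 : 0 ≤ η) (hη1 : η ≤ 1 / 100) (hη : 1 - η ≤ √ρ) (j : ℕ) (hj : 2 ≤ j) (hjn : j ≤ n) :
    |(QP M).eval (ρ * (j : ℝ))| ≤ (1 + 6 * η) * (1 / √((j : ℝ) - 1) - 1 / √(j : ℝ)) := by
  have hj' : (2 : ℝ) ≤ j := by exact_mod_cast hj
  refine (s1_j hM hρ hρ1 hη0 hη1 hη j hj hjn).trans ?_
  have h1 := tele_bound j hj
  have h2 := abs_sin_le_one (2 * M * arcsin (s M (ρ * j)))
  have hj1 : (0 : ℝ) < j - 1 := by linarith
  have hsj : 0 < √(j : ℝ) := sqrt_pos.2 (by linarith)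
  have h3 : 0 ≤ (1 + 6 * η) * (1 / (π * √(j : ℝ) * (j - 1))) := by
    have : 0 ≤ 1 + 6 * η := by linarith
    positivity
  calc |sin (2 * M * arcsin (s M (ρ * j)))| * ((1 + 6 * η) * (1 / (π * √(j : ℝ) * (j - 1))))
      ≤ 1 * ((1 + 6 * η) * (1 / (π * √(j : ℝ) * (j - 1)))) := mul_le_mul_of_nonneg_right h2 h3
    _ = (1 + 6 * η) * (1 / (π * √(j : ℝ) * (j - 1))) := one_mul _
    _ ≤ _ := mul_le_mul_of_nonneg_left h1 (by linarith)

/-- partial sums of the harmonic series -/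
theorem s1_log (J : ℕ) (hJ : 1 ≤ J) (N : ℕ) :
    ∑ i ∈ range N, (if J < i + 2 then 0 else 1 / ((i : ℝ) + 2)) ≤ log J := by
  have h : ∀ N : ℕ, ∑ i ∈ range N, (if J < i + 2 then 0 else 1 / ((i : ℝ) + 2)) ≤
      log ((min J (N + 1) : ℕ) : ℝ) := by
    intro N
    induction N with
    | zero => simp [min_eq_right hJ]
    | succ N ih =>
      rw [sum_range_succ]
      split_ifs with h
      · have h1 : min J (N + 1) = J := min_eq_left (by omega)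
        have h2 : min J (N + 1 + 1) = J := min_eq_left (by omega)
        rw [h1] at ih
        rw [h2]
        linarith
      · have h1 : min J (N + 1) = N + 1 := min_eq_right (by omega)
        have h2 : min J (N + 1 + 1) = N + 2 := min_eq_right (by omega)
        rw [h1] at ih
        rw [h2]
        push_cast at ih ⊢
        have h3 : log (((N : ℝ) + 1) / ((N : ℝ) + 2)) ≤ ((N : ℝ) + 1) / ((N : ℝ) + 2) - 1 :=
          log_le_sub_one_of_pos (by positivity)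
        rw [log_div (by positivity) (by positivity)] at h3
        have h4 : ((N : ℝ) + 1) / ((N : ℝ) + 2) - 1 = - (1 / ((N : ℝ) + 2)) := by
          field_simp
          ring
        linarith
  refine (h N).trans ?_
  apply log_le_log
  · have : 0 < min J (N + 1) := by omega
    exact_mod_cast this
  · have : min J (N + 1) ≤ J := min_le_left _ _
    exact_mod_cast this

theorem s1_two {M n : ℕ} {ρ η : ℝ} (hM : 2 ≤ M) (hρ : L M = ρ * n) (hρ1 : ρ ≤ 1)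
    (hη0 : 0 ≤ η) (hη1 : η ≤ 1 / 100) (hη : 1 - η ≤ √ρ) (J : ℕ) (hJ : 1 ≤ J) (N : ℕ)
    (hN : N + 1 ≤ n) :
    ∑ i ∈ range N, |(QP M).eval (ρ * ((i : ℝ) + 2))| ≤
      (1 + 6 * η) * (1 / 2 + J * (4 / 3 / n) + 2 * η * log J + 1 / √(J : ℝ)) := by
  have hn' : (0 : ℝ) < n := by
    have : 0 < n := by omega
    exact_mod_cast this
  have h1 : ∀ i ∈ range N, |(QP M).eval (ρ * ((i : ℝ) + 2))| ≤ (1 + 6 * η) * (|g (i + 2)| +
      (if J < i + 2 then 0 else 4 / 3 / (n : ℝ)) +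
      2 * η * (if J < i + 2 then 0 else 1 / ((i : ℝ) + 2)) +
      (if J < i + 2 then (1 / √((i : ℝ) + 1) - 1 / √((i : ℝ) + 2)) else 0)) := by
    intro i hi
    have hi := mem_range.1 hi
    have e1 : ((i : ℝ) + 2) = ((i + 2 : ℕ) : ℝ) := by push_cast; ring
    have e2 : ((i + 2 : ℕ) : ℝ) - 1 = (i : ℝ) + 1 := by push_cast; ring
    split_ifs with h
    · have h2 := s1_big hM hρ hρ1 hη0 hη1 hη (i + 2) (by omega) (by omega)
      rw [e2, ← e1] at h2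
      refine h2.trans ?_
      apply mul_le_mul_of_nonneg_left _ (by linarith)
      have := abs_nonneg (g (i + 2))
      linarith
    · have h2 := s1_small hM hρ hρ1 hη0 hη1 hη (i + 2) (by omega) (by omega)
      rw [← e1] at h2
      refine h2.trans ?_
      apply mul_le_mul_of_nonneg_left _ (by linarith)
      linarith
  refine (sum_le_sum h1).trans ?_
  rw [← mul_sum, sum_add_distrib, sum_add_distrib, sum_add_distrib, ← mul_sum]
  have h2 := sum_g_two N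
  have h3 := sum_ind J N (4 / 3 / (n : ℝ)) (by positivity)
  have h4 := sum_tele J hJ N
  have h5 : 0 ≤ 1 / √((max J (N + 1) : ℕ) : ℝ) := by positivity
  have h6 := mul_le_mul_of_nonneg_left (s1_log J hJ N) (by linarith : 0 ≤ 2 * η)
  apply mul_le_mul_of_nonneg_left _ (by linarith)
  linarith

/-- MODULE N1: the sum for the rescaled certificate -/
theorem sum_bound {M n J : ℕ} {ρ η : ℝ} (hM : 2 ≤ M) (hn : 1 ≤ n) (hρ : L M = ρ * n) (hρ1 : ρ ≤ 1)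
    (hη0 : 0 ≤ η) (hη1 : η ≤ 1 / 100) (hη : 1 - η ≤ √ρ) (hJ : 1 ≤ J) :
    ∑ j ∈ range n, |(QP M).eval (ρ * ((j : ℝ) + 1))| ≤
      1 + 20 * (η * (1 + log J) + J / n + 1 / √(J : ℝ)) := by
  have hn' : (1 : ℝ) ≤ n := by exact_mod_cast hn
  have hJ' : (1 : ℝ) ≤ J := by exact_mod_cast hJ
  obtain ⟨N, hN⟩ : ∃ N, n = N + 1 := ⟨n - 1, by omega⟩
  have h0 : ∑ j ∈ range n, |(QP M).eval (ρ * ((j : ℝ) + 1))| =
      ∑ i ∈ range N, |(QP M).eval (ρ * ((i : ℝ) + 2))| + |(QP M).eval ρ| := by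
    rw [hN, sum_range_succ']
    congr 1
    · apply sum_congr rfl
      intro i _
      have e1 : ((i + 1 : ℕ) : ℝ) + 1 = (i : ℝ) + 2 := by push_cast; ring
      rw [e1]
    · have e1 : ρ * (((0 : ℕ) : ℝ) + 1) = ρ := by push_cast; ring
      rw [e1]
  rw [h0]
  have h1 := s1_two hM hρ hρ1 hη0 hη1 hη J hJ N (by omega)
  have h2 := s1_one hM hn hρ hρ1 hη0 hη1 hη
  have hlog : 0 ≤ log (J : ℝ) := log_nonneg hJ'
  have hsJ : 0 ≤ 1 / √(J : ℝ) := by positivity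
  have hJn : 0 ≤ (J : ℝ) / n := by positivity
  have e3 : (J : ℝ) * (4 / 3 / n) = 4 / 3 * (J / n) := by ring
  have e4 : 2.1 / (n : ℝ) ≤ 2.1 * (J / n) := by
    have : 2.1 / (n : ℝ) = 2.1 * (1 / n) := by ring
    rw [this]
    apply mul_le_mul_of_nonneg_left _ (by norm_num)
    exact div_le_div_of_nonneg_right hJ' (by linarith)
  rw [e3] at h1
  have h3 : (1 + 6 * η) * (1 / 2 + 4 / 3 * ((J : ℝ) / n) + 2 * η * log J + 1 / √(J : ℝ)) ≤
      1 / 2 + 3 * η + 2 * (J / n) + 3 * (η * log J) + 2 * (1 / √(J : ℝ)) := by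
    have a1 : η * ((J : ℝ) / n) ≤ 1 / 100 * (J / n) := mul_le_mul_of_nonneg_right hη1 hJn
    have a2 : η * (η * log J) ≤ 1 / 100 * (η * log J) :=
      mul_le_mul_of_nonneg_right hη1 (mul_nonneg hη0 hlog)
    have a3 : η * (1 / √(J : ℝ)) ≤ 1 / 100 * (1 / √(J : ℝ)) :=
      mul_le_mul_of_nonneg_right hη1 hsJ
    have a4 : 0 ≤ η * log J := mul_nonneg hη0 hlog
    nlinarith
  have h4 : 0 ≤ η * log J := mul_nonneg hη0 hlog
  nlinarith

end Pool.Agent.H30W
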