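import Pool.Agent.H30W.Contra
import Pool.Agent.H30W.Dvd
import Pool.Agent.H30W.Sum1
import Pool.Agent.H30W.Low1
import Pool.Agent.H30W.Ineq
import Pool.Agent.H30V.MB

/-!
# The upper bound for integer coefficients
-/

set_option autoImplicit false

open Finset Polynomial Real Filter

namespace Pool.Agent.H30W

open Pool.Agent.H30V

lemma wt_ne {j : ℕ} (h : wt j ≠ 0) : 2 ≤ j ∧ Nat.sqrt j ^ 2 ≠ j := by
  have h1 : j % 8 = 2 ∨ j % 8 = 6 := by
    unfold wt at h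
    by_contra hcon
    push Not at hcon
    rw [if_neg hcon.1, if_neg hcon.2] at h
    exact h rfl
  refine ⟨by omega, ?_⟩
  intro h2
  generalize Nat.sqrt j = v at h2
  have h3 : v ^ 2 % 8 = 0 ∨ v ^ 2 % 8 = 1 ∨ v ^ 2 % 8 = 4 := by
    have h4 : v % 8 < 8 := Nat.mod_lt _ (by norm_num)
    rw [pow_two, Nat.mul_mod]
    generalize v % 8 = r at h4
    interval_cases r <;> simp
  rw [h2] at h3
  omega

/-- the parameter `M` of the certificate -/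
lemma exists_M {n k : ℕ} {l : ℝ} (c1 : (10 : ℝ) ^ 8 ≤ l) (hl30 : l ^ 30 ≤ √(n : ℝ))
    (hcon : π / 2 * √(n : ℝ) - √(n : ℝ) / l ^ 9 < k) :
    ∃ M : ℕ, M ≤ k ∧ (M : ℝ) ≤ π / 2 * √(n : ℝ) ∧ π / 2 * √(n : ℝ) - √(n : ℝ) / l ^ 9 ≤ M ∧
      1.5 * √(n : ℝ) ≤ M - 2 := by
  have hl0 : 0 < l := by linarith
  have hl1 : 1 ≤ l := by linarith
  have hpi := pi_pos
  have hpi3 := pi_gt_d2
  have hl9' : (10 : ℝ) ^ 8 ≤ l ^ 9 := c1.trans (le_self_pow₀ hl1 (by norm_num))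
  have h1 : 100 ≤ √(n : ℝ) := by
    have : l ≤ l ^ 30 := le_self_pow₀ hl1 (by norm_num)
    linarith
  have hs0 : 0 < √(n : ℝ) := by linarith
  refine ⟨min k ⌊π / 2 * √(n : ℝ)⌋₊, min_le_left _ _, ?_, ?_⟩
  · have h1 : ((min k ⌊π / 2 * √(n : ℝ)⌋₊ : ℕ) : ℝ) ≤ (⌊π / 2 * √(n : ℝ)⌋₊ : ℝ) := by
      exact_mod_cast min_le_right _ _
    exact h1.trans (Nat.floor_le (by positivity))
  · have hlow : π / 2 * √(n : ℝ) - √(n : ℝ) / l ^ 9 ≤ ((min k ⌊π / 2 * √(n : ℝ)⌋₊ : ℕ) : ℝ) := by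
      have h1 : π / 2 * √(n : ℝ) - √(n : ℝ) / l ^ 9 ≤ (⌊π / 2 * √(n : ℝ)⌋₊ : ℝ) := by
        have h2 := Nat.lt_floor_add_one (π / 2 * √(n : ℝ))
        have h3 : 1 ≤ √(n : ℝ) / l ^ 9 := by
          rw [one_le_div (by positivity)]
          exact (pow_le_pow_right₀ hl1 (by norm_num)).trans hl30
        linarith
      rcases le_total k ⌊π / 2 * √(n : ℝ)⌋₊ with h | h
      · rw [min_eq_left h]; exact hcon.le
      · rw [min_eq_right h]; exact h1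
    refine ⟨hlow, ?_⟩
    have hdiv : √(n : ℝ) / l ^ 9 ≤ √(n : ℝ) / 10 ^ 8 :=
      div_le_div_of_nonneg_left hs0.le (by norm_num) hl9'
    have h2 : √(n : ℝ) / 10 ^ 8 ≤ √(n : ℝ) * 0.001 := by linarith
    nlinarith

/-- the core, with explicit conditions on the size of `n` -/
theorem core {n k : ℕ} (q : ℤ[X]) (hn : q.natDegree ≤ n)
    (hc : ∀ i, q.coeff i = -1 ∨ q.coeff i = 0 ∨ q.coeff i = 1) (h0 : q.coeff 0 = 1)
    (hk : (X - 1 : ℤ[X]) ^ k ∣ q)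
    (c1 : (10 : ℝ) ^ 8 ≤ log n) (c2 : log n ^ 60 ≤ (n : ℝ))
    (c3 : 10 ^ 8 * (2 + 20 * log (log n)) ≤ log n) :
    (k : ℝ) ≤ π / 2 * √(n : ℝ) - √(n : ℝ) / log n ^ 9 := by
  by_contra hcon
  push Not at hcon
  generalize hl : log (n : ℝ) = l at c1 c2 c3 hcon
  have hl0 : 0 < l := by linarith
  have hl1 : 1 ≤ l := by linarith
  have hpi := pi_pos
  have hn1 : 1 ≤ n := by
    rcases Nat.eq_zero_or_pos n with h | h
    · subst h
      norm_num at hl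
      linarith
    · exact h
  have hn0 : (0 : ℝ) < n := by exact_mod_cast hn1
  have hs0 : 0 < √(n : ℝ) := sqrt_pos.2 hn0
  have hs2 : √(n : ℝ) ^ 2 = n := sq_sqrt hn0.le
  have hl30 : l ^ 30 ≤ √(n : ℝ) := by
    apply le_sqrt_of_sq_le
    rw [← pow_mul]
    exact c2
  have hl9' : (10 : ℝ) ^ 8 ≤ l ^ 9 := c1.trans (le_self_pow₀ hl1 (by norm_num))
  -- the certificate
  obtain ⟨M, hMk, hMfl, hMlow, hM15⟩ := exists_M c1 hl30 hcon
  have hM2 : 2 ≤ M := by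
    have : (2 : ℝ) ≤ M := by linarith
    exact_mod_cast this
  have hM0 : (0 : ℝ) < M := by positivity
  obtain ⟨ρ, hρ⟩ : ∃ ρ : ℝ, ρ = L M / n := ⟨_, rfl⟩
  have hLM : L M = ρ * n := by rw [hρ]; field_simp
  have hρsq : ρ = (2 * M / (π * √(n : ℝ))) ^ 2 := by
    rw [hρ, div_pow, mul_pow, mul_pow, hs2]
    unfold L
    field_simp
    norm_num
  have hρ1 : ρ ≤ 1 := by
    rw [hρsq]
    have h1 : 0 ≤ 2 * M / (π * √(n : ℝ)) := by positivity
    have h2 : 2 * M / (π * √(n : ℝ)) ≤ 1 := by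
      rw [div_le_one (by positivity)]
      linarith
    exact pow_le_one₀ h1 h2
  obtain ⟨η, hη⟩ : ∃ η : ℝ, η = 1 / l ^ 9 := ⟨_, rfl⟩
  have hη0 : 0 ≤ η := by rw [hη]; positivity
  have hη1 : η ≤ 1 / 100 := by
    rw [hη]
    apply one_div_le_one_div_of_le (by norm_num)
    linarith
  have hηρ : 1 - η ≤ √ρ := by
    rw [hρsq, sqrt_sq (by positivity), le_div_iff₀ (by positivity)]
    have h1 : √(n : ℝ) / l ^ 9 = η * √(n : ℝ) := by rw [hη]; ring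
    rw [h1] at hMlow
    have h2 : 0 ≤ η * √(n : ℝ) := by positivity
    have h3 : 3 * (η * √(n : ℝ)) ≤ π * (η * √(n : ℝ)) :=
      mul_le_mul_of_nonneg_right pi_gt_three.le h2
    have h4 : (1 - η) * (π * √(n : ℝ)) = π * √(n : ℝ) - π * (η * √(n : ℝ)) := by ring
    rw [h4]
    linarith
  -- the sum
  obtain ⟨J, hJ⟩ : ∃ J : ℕ, J = ⌈l ^ 20⌉₊ := ⟨_, rfl⟩
  have hJ1 : l ^ 20 ≤ (J : ℝ) := by rw [hJ]; exact Nat.le_ceil _
  have hl20 : 1 ≤ l ^ 20 := one_le_pow₀ hl1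
  have hJ2 : (J : ℝ) ≤ 2 * l ^ 20 := by
    have h1 := Nat.ceil_lt_add_one (show (0 : ℝ) ≤ l ^ 20 by positivity)
    rw [hJ]
    linarith
  have hJ0 : 1 ≤ J := by
    have : (1 : ℝ) ≤ J := by linarith
    exact_mod_cast this
  have hsum := sum_bound (n := n) (J := J) hM2 hn1 hLM hρ1 hη0 hη1 hηρ hJ0
  have hδb := delta_bound c1 c2 c3 hJ1 hJ2
  rw [← hη] at hδb
  generalize 20 * (η * (1 + log J) + J / n + 1 / √(J : ℝ)) = δ at hsum hδb
  -- duality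
  obtain ⟨Q1, hQ1⟩ : ∃ Q1 : ℝ[X], Q1 = (QP M).comp (C ρ * X) := ⟨_, rfl⟩
  have hQ1e : ∀ x : ℝ, Q1.eval x = (QP M).eval (ρ * x) := by
    intro x
    rw [hQ1, eval_comp]
    simp
  have hQ1d : Q1.natDegree < k := by
    have h1 : Q1.natDegree ≤ (QP M).natDegree := by
      rw [hQ1]
      refine natDegree_comp_le.trans ?_
      have h2 : (C ρ * X : ℝ[X]).natDegree ≤ 1 := (natDegree_C_mul_le _ _).trans natDegree_X_le
      calc (QP M).natDegree * (C ρ * X : ℝ[X]).natDegree ≤ (QP M).natDegree * 1 := Nat.mul_le_mul_left _ h2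
        _ = _ := mul_one _
    have h3 := natDegree_QP M (by omega)
    omega
  have hdual := dual_real n k q hn hk Q1 hQ1d
  have hca : ∀ i, (q.coeff i : ℝ) = -1 ∨ (q.coeff i : ℝ) = 0 ∨ (q.coeff i : ℝ) = 1 := by
    intro i
    rcases hc i with h | h | h <;> simp [h]
  have hlr : 800 ≤ 30 * l ^ 4 := by
    have : l ≤ l ^ 4 := le_self_pow₀ hl1 (by norm_num)
    linarith
  have hln := l_pow_le c1 c2
  have hpat : ∀ j : ℕ, (j : ℝ) ≤ 30 * l ^ 4 → wt j ≠ 0 → (q.coeff j : ℝ) = (-1) ^ (Nat.sqrt j) := by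
    intro j hj hw
    obtain ⟨hj2, hjs⟩ := wt_ne hw
    have hj2' : (2 : ℝ) ≤ j := by exact_mod_cast hj2
    have hl4 : 0 < l ^ 4 := by positivity
    have hjn' : (j : ℝ) ≤ n := by linarith
    have hjn : j ≤ n := by exact_mod_cast hjn'
    have hsmall := small_bound c1 c2 (by linarith : (0 : ℝ) ≤ j) hj
    rw [← hη] at hsmall
    have hlow := low_bound hM2 hn1 hLM hρ1 hη0 hη1 hηρ hj2 hjn hjs hsmall
    have hlow2 : δ < -((-1 : ℝ) ^ (Nat.sqrt j) * Q1.eval (j : ℝ)) := by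
      rw [hQ1e]
      refine lt_of_lt_of_le ?_ hlow
      refine hδb.trans_le ?_
      apply one_div_le_one_div_of_le (by positivity)
      apply mul_le_mul_of_nonneg_left _ (by norm_num)
      exact pow_le_pow_left₀ (by linarith) hj 2
    have hσ : (-1 : ℝ) ^ (Nat.sqrt j) = 1 ∨ (-1 : ℝ) ^ (Nat.sqrt j) = -1 :=
      neg_one_pow_eq_or ℝ (Nat.sqrt j)
    refine pattern (n := n) (δ := δ) (fun i => (q.coeff i : ℝ)) (fun i => Q1.eval (i : ℝ)) ?_ hca ?_ hdual ?_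
      j (by omega) hjn _ hσ hlow2
    · simp only [h0, Int.cast_one]
    · simp only [Nat.cast_zero]
      rw [hQ1e, mul_zero, QP_zero hM2]
    · refine le_trans (le_of_eq ?_) hsum
      apply sum_congr rfl
      intro i _
      simp only [hQ1e]
      push_cast
      rfl
  -- divisibility
  have hbig := m_large c1 hl30
  obtain ⟨m, hm⟩ : ∃ m : ℕ, m = ⌊√(n : ℝ) / (5 * l)⌋₊ := ⟨_, rfl⟩
  have hm1 : (m : ℝ) ≤ √(n : ℝ) / (5 * l) := by rw [hm]; exact Nat.floor_le (by positivity)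
  have hm2 : √(n : ℝ) / (5 * l) < m + 1 := by rw [hm]; exact Nat.lt_floor_add_one _
  have hm3 : 2 ≤ m := by
    have : (2 : ℝ) ≤ m := by linarith
    exact_mod_cast this
  have hMk' : (M : ℝ) ≤ k := by exact_mod_cast hMk
  have hpow := pow_bound c1 hl hn1 hm1 (by linarith : 1.5 * √(n : ℝ) ≤ k)
  have hq0 : q ≠ 0 := by
    rintro rfl
    simp at h0
  have habs : ∀ i, |q.coeff i| ≤ 1 := by
    intro i
    rcases hc i with h | h | h <;> rw [h] <;> norm_num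
  have hdvd := dvd_of_order q hq0 n k m hn habs hk hpow
  have hR1 : ((m - 1 : ℕ) : ℝ) = m - 1 := by
    rw [Nat.cast_sub (by omega)]
    norm_num
  refine contra (R := m - 1) (Lr := 30 * l ^ 4) q hn habs hdvd (by omega) hlr ?_ ?_ ?_ hpat
  · linarith
  · rw [hR1]
    exact kcond1 c1 c2 hl hm2 hbig
  · rw [hR1]
    exact kcond2 c1 c2 hm1

/-- the upper bound for integer coefficients -/
theorem int_upper : ∃ n0 : ℕ, ∀ n, n0 ≤ n → ∀ (k : ℕ) (P : ℤ[X]), P.natDegree ≤ n →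
    (∀ i, P.coeff i = -1 ∨ P.coeff i = 0 ∨ P.coeff i = 1) → P ≠ 0 → (X - 1 : ℤ[X]) ^ k ∣ P →
    (k : ℝ) ≤ π / 2 * √(n : ℝ) - √(n : ℝ) / log n ^ 9 := by
  obtain ⟨n0, h⟩ := eventually_atTop.1 eventually_large
  refine ⟨n0, fun n hn k P h1 h2 h3 h4 => ?_⟩
  obtain ⟨c1, c2, c3⟩ := h n hn
  obtain ⟨q, q1, q2, q3, q4⟩ := H30V.strip k n P.natDegree P le_rfl h1 h2 h3 h4
  rcases q2 0 with h5 | h5 | h5
  · refine core (-q) (by rwa [natDegree_neg]) ?_ ?_ ?_ c1 c2 c3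
    · intro i
      rw [coeff_neg]
      rcases q2 i with h6 | h6 | h6 <;> rw [h6] <;> simp
    · rw [coeff_neg, h5]; norm_num
    · exact (dvd_neg).2 q4
  · exact absurd h5 q3
  · exact core q q1 q2 h5 q4 c1 c2 c3

end Pool.Agent.H30W
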